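import Pool.Agent.Lib.MP_a0a715_lc.Defs

/-!
# Circuits in which every input bit influences few output bits
-/

namespace Pool.Agent.MPa0a715

open Pool.Agent.PolyTime

/-- The value of the output bit in position `j` on the input `x`. -/
def Circuit.outBit (C : Circuit) (x : List Bool) (j : ℕ) : Bool :=
  (C.wires x).getD (C.outs.getD j 0) false

/-- Input bit `i` influences output bit `j`: there is an input for which flipping bit `i` changes
output bit `j`. -/
def Circuit.Influences (C : Circuit) (i j : ℕ) : Prop :=
  ∃ x : List Bool, x.length = C.n ∧ C.outBit (flip x i) j ≠ C.outBit x j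

/-- Every input bit influences at most `k` output bits. -/
def Circuit.Influence (k : ℕ) (C : Circuit) : Prop :=
  ∀ i < C.n, ∃ S : Finset ℕ, S.card ≤ k ∧ ∀ j < C.outs.length, C.Influences i j → j ∈ S

/-- For every input and every input bit, flipping the bit changes at most `k` output bits. -/
def Circuit.Changes (k : ℕ) (C : Circuit) : Prop :=
  ∀ x : List Bool, x.length = C.n → ∀ i < C.n,
    ((Finset.range C.outs.length).filter fun j =>
      C.outBit (flip x i) j ≠ C.outBit x j).card ≤ k

end Pool.Agent.MPa0a715
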