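import Pool.Agent.Lib.MP_a0a715_lc_IN.Main2

/-!
# Local minima of the constructed problem hold local minima of the given one
-/

namespace Pool.Agent.MPa0a715.IN

namespace Par

variable {P : Par} {X Y : ℕ → Bool}

/-- the stored values of the loser are right -/
theorem loser_v (h : P.LM X) {i : ℕ} (hi : i < P.n) :
    P.v X (!P.w X) i = P.nx (P.v X (P.w X)) i := by
  have hL : P.L = P.n + 2 * P.m := rfl
  by_contra hne
  refine V_false h (Or.inr ⟨2 * P.m + i, by omega, fun k _ hk => clock_done h hk, ?_, ?_⟩)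
  · intro hcon
    omega
  · unfold wrong
    rw [if_neg (by omega), Nat.add_sub_cancel_left]
    exact hne

theorem loser_z (h : P.LM X) {j : ℕ} (hj : j < P.m) :
    P.z X (!P.AA X j) j = P.cs (P.v X (!P.w X)) j := by
  have hL : P.L = P.n + 2 * P.m := rfl
  by_contra hne
  have hmod : decide ((2 * j + (!P.AA X j).toNat) % 2 = 1) = !P.AA X j := by
    cases P.AA X j with
    | true =>
      simp
    | false =>
      simp
  have hdiv : (2 * j + (!P.AA X j).toNat) / 2 = j := by
    cases P.AA X j
    · simp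
      omega
    · simp
  have hlt : 2 * j + (!P.AA X j).toNat < 2 * P.m := by
    have := Bool.toNat_le (!P.AA X j)
    omega
  refine V_false h (Or.inr ⟨2 * j + (!P.AA X j).toNat, by omega,
    fun k _ hk => clock_done h hk, ?_, ?_⟩)
  · intro _
    rw [hmod, hdiv]
    cases P.AA X j <;> simp
  · unfold wrong
    rw [if_pos hlt, hmod, hdiv]
    exact hne

/-- the result of the last comparison has been used -/
theorem top_zero (h : P.LM X) : P.c X P.T = false := by
  have hMT : P.M = 2 * P.T + 3 := rfl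
  have hBT := BT (P := P)
  have hLT := LT (P := P)
  have hL : P.L = P.n + 2 * P.m := rfl
  by_contra hne
  have hT : P.c X P.T = true := by simpa using hne
  obtain ⟨hf, hg, hz, hv⟩ := flip_f (P := P) (X := X) (t₀ := P.T) (by omega)
  have hcT : P.c (fl X P.T) P.T = !P.c X P.T := Ar_flip_top 0
  have hw : P.w (fl X P.T) = !P.w X := Ar_flip_top _
  have hAA : ∀ j, P.AA (fl X P.T) j = !P.AA X j := fun j => Ar_flip_top _
  have h1 := lm_use h (i := P.T) (p := 2 * P.T + 1) (by omega) (by omega) (O_R.2 hT) (by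
    intro q hq hpq
    have h2 : q = 2 * P.T + 2 := by
      have := mem_infl_f (by omega) hq
      omega
    rw [h2, O_V, O_V]
    refine iff_of_false ?_ (V_false h)
    rintro (⟨_, j, hj, h3⟩ | ⟨k, hk, h3, -⟩)
    · rw [hAA, hw, hz _ _ (by omega), cs_congr (Y := X) fun i hi => hv _ _ (by omega)] at h3
      exact h3 (loser_z h hj)
    · have h4 := h3 (P.L - 1) (by omega) (by omega)
      rw [hw, hg _ (by omega), clock_done h (by omega)] at h4
      cases hw' : P.w X <;> simp [hw'] at h4)
  rw [O_R, hcT, hT] at h1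
  exact absurd h1 (by simp)

theorem winner_z (h : P.LM X) {j : ℕ} (hj : j < P.m) :
    P.z X (P.AA X j) j = P.cs (P.v X (P.w X)) j := by
  by_contra hne
  exact V_false h (Or.inl ⟨top_zero h, j, hj, hne⟩)

/-- the effect of changing the selector at digit `j₀` -/
theorem Ar_flip_sel {j₀ r : ℕ} (hj : j₀ < P.m) (hr : r ≤ P.m) :
    P.Ar (fl X (P.B + (P.L + j₀))) r =
      if r < P.m - j₀ then P.Ar X r else !P.Ar X r := by
  have hBT := BT (P := P)
  have hLT := LT (P := P)
  obtain ⟨hf, hg, hz, hv⟩ := flip_g (P := P) (X := X) (t₀ := P.L + j₀) (by omega)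
  induction r with
  | zero =>
    rw [if_pos (by omega)]
    refine c_congr (fun _ => hf _ (by omega)) ?_
    rw [hg _ (by omega), if_neg (by omega)]
  | succ r ih =>
    unfold Ar
    rw [ih (by omega), hg _ (by omega)]
    by_cases h1 : P.T - (r + 1) = P.L + j₀
    · rw [if_pos h1, if_pos (show r < P.m - j₀ by omega),
        if_neg (show ¬ r + 1 < P.m - j₀ by omega)]
      cases P.Ar X r <;> cases P.g X (P.T - (r + 1)) <;> rfl
    · rw [if_neg h1]
      by_cases h2 : r < P.m - j₀
      · rw [if_pos h2, if_pos (show r + 1 < P.m - j₀ by omega)]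
      · rw [if_neg h2, if_neg (show ¬ r + 1 < P.m - j₀ by omega)]
        cases P.Ar X r <;> cases P.g X (P.T - (r + 1)) <;> rfl

/-- a local minimum of the constructed problem holds a solution of the given one -/
theorem main (hnext : ∀ u : ℕ → Bool, (∀ i < P.n, P.nx u i = u i) ∨
      ∃ j₀ < P.m, P.cs (P.nx u) j₀ = false ∧ P.cs u j₀ = true ∧
        ∀ j < P.m, j₀ < j → P.cs (P.nx u) j = P.cs u j)
    (h : P.LM X) {i : ℕ} (hi : i < P.n) : P.nx (P.v X (P.w X)) i = P.v X (P.w X) i := by
  have hMT : P.M = 2 * P.T + 3 := rfl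
  have hBT := BT (P := P)
  have hLT := LT (P := P)
  have hL : P.L = P.n + 2 * P.m := rfl
  rcases hnext (P.v X (P.w X)) with h0 | ⟨j₀, hj₀, h1, h2, h3⟩
  · exact h0 i hi
  exfalso
  have hcs : P.cs (P.v X (!P.w X)) = P.cs (P.nx (P.v X (P.w X))) :=
    P.hcs _ _ fun i hi => loser_v h hi
  have hlB : P.L + j₀ < P.B := by omega
  obtain ⟨hf, hg, hz, hv⟩ := flip_g (P := P) (X := X) (t₀ := P.L + j₀) hlB
  have hcT : P.c (fl X (P.B + (P.L + j₀))) P.T = P.c X P.T := by
    have := Ar_flip_sel (P := P) (X := X) (r := 0) hj₀ (Nat.zero_le _)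
    rwa [if_pos (by omega)] at this
  have hw : P.w (fl X (P.B + (P.L + j₀))) = !P.w X := by
    have := Ar_flip_sel (P := P) (X := X) (r := P.m) hj₀ le_rfl
    rwa [if_neg (by omega)] at this
  have hAA : ∀ j < P.m, P.AA (fl X (P.B + (P.L + j₀))) j =
      if j₀ < j then P.AA X j else !P.AA X j := by
    intro j hj
    have := Ar_flip_sel (P := P) (X := X) (r := P.m - j) hj₀ (by omega)
    unfold AA
    rw [this]
    by_cases h5 : j₀ < j
    · rw [if_pos h5, if_pos (by omega)]
    · rw [if_neg h5, if_neg (by omega)]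
  have hcsame : ∀ s, P.cs (P.v (fl X (P.B + (P.L + j₀))) s) = P.cs (P.v X s) := fun s =>
    cs_congr fun i hi => hv _ _ (by omega)
  have hO : P.O X (2 * (P.L + j₀) + 1) := by
    rw [O_O (by omega) (by omega), c_AA h (by omega), Nat.add_sub_cancel_left, winner_z h hj₀, h2]
  have h4 := lm_use h (i := P.B + (P.L + j₀)) (p := 2 * (P.L + j₀) + 1) (by omega) (by omega)
    hO (by
      intro q hq hpq
      have h5 : q = 2 * P.T + 2 := by
        have := mem_infl_g hlB hq
        omega
      rw [h5, O_V, O_V]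
      refine iff_of_false ?_ (V_false h)
      rintro (⟨_, j, hj, h6⟩ | ⟨k, hk, h6, -⟩)
      · rw [hAA j hj, hw, hz _ _ (by omega), hcsame] at h6
        by_cases h7 : j₀ < j
        · rw [if_pos h7] at h6
          apply h6
          rw [winner_z h hj, hcs, h3 j hj h7]
        · rw [if_neg h7] at h6
          exact h6 (loser_z h hj)
      · have h7 := h6 (P.L - 1) (by omega) (by omega)
        rw [hw, hg _ (by omega), if_neg (by omega), clock_done h (by omega)] at h7
        cases hw' : P.w X <;> simp [hw'] at h7)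
  have hc : P.c (fl X (P.B + (P.L + j₀))) (P.L + j₀) = !P.c X (P.L + j₀) := by
    rw [c_ge (by omega), c_ge (by omega), hf _ hlB, hg _ hlB, if_pos rfl]
    cases P.f X (P.L + j₀) <;> cases P.g X (P.L + j₀) <;> rfl
  rw [O_O (by omega) (by omega), hc, c_AA h (by omega), Nat.add_sub_cancel_left, hz _ _ (by omega),
    loser_z h hj₀, hcs, h1] at h4
  exact absurd h4 (by simp)

end Par

end Pool.Agent.MPa0a715.IN
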