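import Pool.Agent.Lib.MP_a0a715_lc_IN.Env2
import Pool.Agent.Lib.MP_a0a715_lc_IN.Main3
import Pool.Agent.Lib.MP_a0a715_lc_IN.Defs

/-!
# The reduction
-/

namespace Pool.Agent.MPa0a715.IN

open Pool.Agent.MPa0a715 Pool.Agent.PolyTime
open Pool.Agent.MPa0a715.TL (nextC nextC_valid nextC_n nextC_outs_length nextC_out)

/-- outputs of the circuit for the next solution -/
def cval (C : Circuit) (u : ℕ → Bool) (q : ℕ) : Bool :=
  ((nextC C).out ((List.range C.n).map u)).getD q false

theorem cval_congr (C : Circuit) {u u' : ℕ → Bool} (h : ∀ i < C.n, u i = u' i) :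
    cval C u = cval C u' := by
  have : (List.range C.n).map u = (List.range C.n).map u' :=
    List.map_congr_left fun i hi => h i (List.mem_range.1 hi)
  funext q
  unfold cval
  rw [this]

/-- the data given by a circuit -/
def par (C : Circuit) : Par where
  n := C.n
  m := C.outs.length
  nx := cval C
  cs := fun u j => cval C u (C.n + j)
  hnx := fun u u' h => cval_congr C h
  hcs := fun u u' h => by rw [cval_congr C h]

/-- the gates -/
def gts (C : Circuit) : List NG :=
  toG 1 (iblocks C.n C.outs.length (C.n + 2 * C.outs.length) (C.n + 3 * C.outs.length)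
    (C.n + 3 * C.outs.length + 1) (nextC C).gates (nextC C).outs)

/-- the names of the inputs -/
def ins (C : Circuit) : List Name := inNames (6 * (C.n + 3 * C.outs.length + 1))

/-- the names of the outputs -/
def ots (C : Circuit) : List Name := ws 25 (List.range (2 * (C.n + 3 * C.outs.length) + 3))

/-- the circuit -/
def red (C : Circuit) : Circuit := compile (ins C) (gts C) (ots C)

section
variable {C : Circuit}

theorem red_n : (red C).n = 6 * (par C).B := length_inNames _

theorem wf (hC : C.Valid) (hn : 0 < C.n) : WF (ins C) (gts C) := by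
  have hv := nextC_valid hC hn
  refine wf_blocks (iblocks_ok rfl (by omega) rfl ?_ ?_ ?_)
  · intro k h r hr
    have := hv.1 k h r hr
    rwa [nextC_n] at this
  · intro o ho
    have := (hv.2 o ho).2
    rwa [nextC_n] at this
  · rw [nextC_outs_length]

theorem ots_mem {o : Name} (ho : o ∈ ots C) : o ∈ (gts C).map Prod.fst := by
  obtain ⟨h1, h2⟩ := mem_ws.1 ho
  exact toG_names.2 ⟨24, _, rfl, by omega, List.mem_range.1 h2⟩

theorem red_valid (hC : C.Valid) (hn : 0 < C.n) : (red C).Valid :=
  compile_valid (wf hC hn) fun _ ho => ots_mem ho

theorem red_outs_length : (red C).outs.length = (par C).M := by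
  unfold red compile ots ws
  simp [Par.M, Par.T, par]

/-- the function given by a list -/
def fn (x : List Bool) : ℕ → Bool := fun i => x.getD i false

theorem fn_flip {x : List Bool} {i : ℕ} (hi : i < x.length) : fn (flip x i) = fl (fn x) i := by
  funext j
  change (flip x i).getD j false = if j = i then !x.getD j false else x.getD j false
  by_cases hj : j < x.length
  · rw [getD_flip _ _ _ hj]
    by_cases h : j = i
    · rw [if_pos h, if_pos h.symm]
    · rw [if_neg h, if_neg (fun h' => h h'.symm)]
  · rw [if_neg (by omega), List.getD_eq_default _ _ (by rw [length_flip]; omega),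
      List.getD_eq_default _ _ (by omega)]

/-- what the circuit computes -/
theorem red_out (hC : C.Valid) (hn : 0 < C.n) {x : List Bool} (hx : x.length = 6 * (par C).B)
    {p : ℕ} (hp : p < (par C).M) : (red C).outBit x p = true ↔ (par C).O (fn x) p := by
  have hxl : x.length = (ins C).length := by
    rw [hx]
    exact (length_inNames _).symm
  have hE := compile_sat (wf hC hn) (fun o ho => ots_mem (C := C) (o := o) ho) hxl
  have hbit : (red C).outBit x p = cenv (ins C) (gts C) (ots C) x (25, p) := by
    have h1 : p < (ots C).length := by
      unfold ots ws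
      simpa [Par.M, Par.T, par] using hp
    have h2 : (red C).outs.getD p 0 = wireOf (ins C).length (fanin (gts C))
        (ins C ++ (gts C).map Prod.fst) (25, p) := by
      change ((ots C).map _).getD p 0 = _
      rw [List.getD_eq_getElem _ _ (by rw [List.length_map]; exact h1), List.getElem_map]
      congr 1
      unfold ots ws
      rw [List.getElem_map, List.getElem_range]
    unfold Circuit.outBit cenv
    rw [h2]
    rfl
  have h0 : ∀ i < 6 * (par C).B, cenv (ins C) (gts C) (ots C) x (0, i) = fn x i := by
    intro i hi
    have h1 := cenv_input (outs := ots C) (wf hC hn) hxl (i := i) (by rw [← hxl, hx]; exact hi)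
    have h2 : (ins C)[i]'(by rw [← hxl, hx]; exact hi) = (0, i) := by
      unfold ins inNames
      rw [List.getElem_map, List.getElem_range]
    rw [h2] at h1
    exact h1
  rw [hbit]
  generalize cenv (ins C) (gts C) (ots C) x = E at hE h0
  have hv := nextC_valid hC hn
  have hO : ∀ o ∈ (nextC C).outs, o < (par C).n + (nextC C).gates.length := by
    intro o ho
    have := (hv.2 o ho).2
    rwa [nextC_n] at this
  have hOl : (nextC C).outs.length = (par C).n + (par C).m := nextC_outs_length
  have hG : ∀ (k : ℕ) (h : k < (nextC C).gates.length), ∀ r ∈ (nextC C).gates[k].refs,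
      r < (par C).n + k := by
    intro k h r hr
    have := hv.1 k h r hr
    rwa [nextC_n] at this
  have hnB : (par C).n < (par C).B := by
    unfold Par.B
    omega
  have hcp : ∀ s : Bool, ∀ q < (par C).n + (par C).m,
      E (9 + s.toNat, (nextC C).outs.getD q 0) = cv (par C) (fn x) s q := by
    intro s q hq
    have hcv : cv (par C) (fn x) s q = cval C ((par C).v (fn x) s) q := by
      unfold cv
      split_ifs with h
      · rfl
      · change cval C _ ((par C).n + (q - (par C).n)) = _
        congr 1
        omega
    have hval : cval C ((par C).v (fn x) s) q =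
        (run (nextC C).gates ((List.range (par C).n).map ((par C).v (fn x) s))).getD
          ((nextC C).outs.getD q 0) false := by
      unfold cval Circuit.out
      rw [List.getD_eq_getElem _ _ (by rw [List.length_map]; omega), List.getElem_map,
        List.getD_eq_getElem _ _ (by omega : q < (nextC C).outs.length)]
      rfl
    have hlen : ((List.range (par C).n).map ((par C).v (fn x) s)).length = (par C).n := by simp
    have hin : ∀ t < (par C).n, fn x ((4 + s.toNat) * (par C).B + t) =
        ((List.range (par C).n).map ((par C).v (fn x) s)).getD t false := by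
      intro t ht
      rw [List.getD_eq_getElem _ _ (by rw [hlen]; exact ht), List.getElem_map,
        List.getElem_range]
      rfl
    have hlt := getD_lt (P := par C) hO hOl hq
    rw [hcv, hval]
    cases s with
    | false =>
      refine copy_env (b := 9) (base := 4 * (par C).B) hlen hG ?_ ?_ _ hlt
      · intro t ht
        exact sat_blocks hE (i := 8) rfl t ht
      · intro t ht
        rw [h0 _ (by omega)]
        exact hin t ht
    | true =>
      refine copy_env (b := 10) (base := 5 * (par C).B) hlen hG ?_ ?_ _ hlt
      · intro t ht
        exact sat_blocks hE (i := 9) rfl t ht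
      · intro t ht
        rw [h0 _ (by omega)]
        exact hin t ht
  exact e25 (P := par C) hE h0 hO hOl hcp hp

/-- every input influences at most three outputs -/
theorem red_influence (hC : C.Valid) (hn : 0 < C.n) : (red C).Influence 3 := by
  intro i hi
  rw [red_n] at hi
  refine ⟨(par C).infl i, Par.infl_card i, ?_⟩
  rintro j hj ⟨x, hx, hne⟩
  rw [red_outs_length] at hj
  rw [red_n] at hx
  by_contra hcon
  apply hne
  rw [Bool.eq_iff_iff, red_out hC hn (by rw [length_flip]; exact hx) hj, red_out hC hn hx hj,
    fn_flip (by omega)]
  exact Par.infl_spec hi hj hcon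

theorem out_outBit (C : Circuit) (x : List Bool) {j : ℕ} (hj : j < C.outs.length) :
    (C.out x).getD j false = C.outBit x j := by
  unfold Circuit.out Circuit.outBit
  rw [List.getD_eq_getElem _ _ (by rw [List.length_map]; exact hj), List.getElem_map,
    List.getD_eq_getElem _ _ hj]
  rfl

theorem cost_lt_iff (C : Circuit) (x y : List Bool) : C.cost x < C.cost y ↔
    ∃ p < C.outs.length, C.outBit x p = false ∧ C.outBit y p = true ∧
      ∀ q < C.outs.length, p < q → C.outBit x q = C.outBit y q := by
  have hl : ∀ z, (C.out z).length = C.outs.length := fun z => by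
    unfold Circuit.out
    rw [List.length_map]
  rw [Circuit.cost_eq, Circuit.cost_eq]
  have h1 : 2 * val (C.out x) < 2 * val (C.out y) ↔ val (C.out x) < val (C.out y) := by omega
  rw [h1, val_lt_iff _ _ (by rw [hl, hl]), hl]
  refine exists_congr fun p => and_congr_right fun hp => ?_
  rw [out_outBit C x hp, out_outBit C y hp]
  refine and_congr_right fun _ => and_congr_right fun _ => ?_
  refine forall_congr' fun q => imp_congr_right fun hq => ?_
  rw [out_outBit C x hq, out_outBit C y hq]

/-- local minima of the circuit are local minima in the semantic sense -/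
theorem red_LM (hC : C.Valid) (hn : 0 < C.n) {x : List Bool} (h : (red C).IsLocalMin x) :
    (par C).LM (fn x) := by
  obtain ⟨hx, hmin⟩ := h
  rw [red_n] at hx hmin
  rintro i hi ⟨p, hp, h1, h2, h3⟩
  have hmin := hmin i hi
  rw [← not_lt, cost_lt_iff] at hmin
  apply hmin
  have hx' : (flip x i).length = 6 * (par C).B := by rw [length_flip]; exact hx
  rw [← fn_flip (by omega)] at h2 h3
  refine ⟨p, by rw [red_outs_length]; exact hp, ?_, (red_out hC hn hx hp).2 h1, ?_⟩
  · rw [← Bool.not_eq_true, red_out hC hn hx' hp]
    exact h2
  · intro q hq hpq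
    rw [red_outs_length] at hq
    rw [Bool.eq_iff_iff, red_out hC hn hx' hq, red_out hC hn hx hq]
    exact h3 q hq hpq

/-! ### the solution held by a local minimum -/

/-- the winning slot -/
def win (n m : ℕ) (y : List Bool) : Bool :=
  (List.range m).foldl (fun acc r => (acc != y.getD (n + 3 * m + 1 + (n + 3 * m - (r + 1))) false))
    (y.getD (n + 3 * m) false != y.getD (n + 3 * m + 1 + (n + 3 * m)) false)

/-- the solution in the winning slot -/
def dec (n m : ℕ) (y : List Bool) : List Bool :=
  (List.range n).map fun i =>
    y.getD ((if win n m y then 5 else 4) * (n + 3 * m + 1) + i) false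

theorem win_eq (y : List Bool) : win C.n C.outs.length y = (par C).w (fn y) := by
  have hLT := Par.LT (P := par C)
  have key : ∀ r, (List.range r).foldl
      (fun acc r => (acc != y.getD (C.n + 3 * C.outs.length + 1 +
        (C.n + 3 * C.outs.length - (r + 1))) false))
      (y.getD (C.n + 3 * C.outs.length) false !=
        y.getD (C.n + 3 * C.outs.length + 1 + (C.n + 3 * C.outs.length)) false) =
      (par C).Ar (fn y) r := by
    intro r
    induction r with
    | zero =>
      change _ = (par C).c (fn y) (par C).T
      rw [Par.c_ge (by omega), f_def, g_def]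
      rfl
    | succ r ih =>
      rw [List.range_succ, List.foldl_append, ih]
      change ((par C).Ar (fn y) r != _) = ((par C).Ar (fn y) r != (par C).g (fn y) _)
      rw [g_def]
      rfl
  exact key _

theorem dec_eq (y : List Bool) : dec C.n C.outs.length y =
    (List.range C.n).map ((par C).v (fn y) ((par C).w (fn y))) := by
  unfold dec
  refine List.map_congr_left fun i _ => ?_
  rw [win_eq]
  unfold Par.v Par.a fn
  cases (par C).w fun i => y.getD i false <;> rfl

/-- local minima of the new circuit hold local minima of the given one -/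
theorem dec_min (hC : C.Valid) (hn : 0 < C.n) {y : List Bool} (h : (red C).IsLocalMin y) :
    C.IsLocalMin (dec C.n C.outs.length y) := by
  have hLM := red_LM hC hn h
  rw [dec_eq]
  set u := (par C).v (fn y) ((par C).w (fn y)) with hu
  have hlen : ∀ u : ℕ → Bool, ((List.range C.n).map u).length = C.n := fun u => by simp
  -- what the circuit for the next solution computes
  have hnx : ∀ u : ℕ → Bool, ∃ z : List Bool, z.length = C.n ∧
      (∀ i < C.n, (par C).nx u i = z.getD i false) ∧
      (∀ j < C.outs.length, (par C).cs u j = C.outBit ((List.range C.n).map u) j) ∧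
      ((z = (List.range C.n).map u ∧ C.IsLocalMin ((List.range C.n).map u)) ∨
        C.cost z < C.cost ((List.range C.n).map u)) := by
    intro u
    obtain ⟨z, h1, h2, h3⟩ := nextC_out hC hn (hlen u)
    refine ⟨z, h2, fun i hi => ?_, fun j hj => ?_, h3⟩
    · change ((nextC C).out ((List.range C.n).map u)).getD i false = _
      rw [h1, List.getD_append _ _ _ _ (by omega)]
    · change ((nextC C).out ((List.range C.n).map u)).getD (C.n + j) false = _
      rw [h1, List.getD_append_right _ _ _ _ (by omega), h2, Nat.add_sub_cancel_left,
        out_outBit _ _ hj]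
  have hext : ∀ (u : ℕ → Bool) (z : List Bool), z.length = C.n →
      (∀ i < C.n, (par C).nx u i = z.getD i false) → (List.range C.n).map ((par C).nx u) = z := by
    intro u z hz h1
    refine ext_getD (by rw [hlen, hz]) fun i hi => ?_
    rw [hlen] at hi
    rw [← h1 i hi, List.getD_eq_getElem _ _ (by rw [hlen]; exact hi), List.getElem_map,
      List.getElem_range]
  have hnext : ∀ u : ℕ → Bool, (∀ i < (par C).n, (par C).nx u i = u i) ∨
      ∃ j₀ < (par C).m, (par C).cs ((par C).nx u) j₀ = false ∧ (par C).cs u j₀ = true ∧
        ∀ j < (par C).m, j₀ < j → (par C).cs ((par C).nx u) j = (par C).cs u j := by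
    intro u
    obtain ⟨z, h1, h2, h3, h4⟩ := hnx u
    rcases h4 with ⟨h5, _⟩ | h5
    · left
      intro i hi
      rw [h2 i hi, h5, List.getD_eq_getElem _ _ (by rw [hlen]; exact hi), List.getElem_map,
        List.getElem_range]
    · right
      rw [cost_lt_iff] at h5
      obtain ⟨p, hp, h6, h7, h8⟩ := h5
      obtain ⟨z', _, _, h9, _⟩ := hnx ((par C).nx u)
      rw [hext u z h1 h2] at h9
      refine ⟨p, hp, ?_, ?_, ?_⟩
      · rw [h9 p hp, h6]
      · rw [h3 p hp, h7]
      · intro q hq hpq
        rw [h9 q hq, h3 q hq]
        exact h8 q hq hpq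
  obtain ⟨z, h1, h2, h3, h4⟩ := hnx u
  rcases h4 with ⟨_, h5⟩ | h5
  · exact h5
  · exfalso
    have h6 : z = (List.range C.n).map u := by
      refine ext_getD (by rw [hlen, h1]) fun i hi => ?_
      rw [h1] at hi
      rw [← h2 i hi, List.getD_eq_getElem _ _ (by rw [hlen]; exact hi), List.getElem_map,
        List.getElem_range]
      exact Par.main hnext hLM hi
    rw [h6] at h5
    exact lt_irrefl _ h5

end

end Pool.Agent.MPa0a715.IN
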