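import Pool.Agent.Lib.MP_a0a715_lc_IN.PT

/-!
# At most two outputs change: local search is fast
-/

namespace Pool.Agent.MPa0a715.IN

open Pool.Agent.MPa0a715 Pool.Agent.PolyTime

/-- one step of local search -/
def step (C : Circuit) (x : List Bool) : List Bool :=
  match (List.range C.n).find? (fun i => decide (val (C.out (flip x i)) < val (C.out x))) with
  | none => x
  | some i => flip x i

/-- local search -/
def search (C : Circuit) : List Bool :=
  (List.range (C.outs.length * C.outs.length + 1)).foldl (fun x _ => step C x) (zeros C.n)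

/-- sum of the positions of the true outputs -/
def pot (C : Circuit) (x : List Bool) : ℕ :=
  ∑ p ∈ Finset.range C.outs.length, if C.outBit x p then p + 1 else 0

theorem pot_le (C : Circuit) (x : List Bool) : pot C x ≤ C.outs.length * C.outs.length := by
  unfold pot
  refine (Finset.sum_le_card_nsmul _ _ C.outs.length fun p hp => ?_).trans ?_
  · rw [Finset.mem_range] at hp
    split_ifs <;> omega
  · simp

theorem val_lt_cost {C : Circuit} {x y : List Bool} :
    val (C.out x) < val (C.out y) ↔ C.cost x < C.cost y := by
  rw [Circuit.cost_eq, Circuit.cost_eq]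
  omega

theorem step_cases (C : Circuit) (x : List Bool) :
    (step C x = x ∧ ∀ i < C.n, C.cost x ≤ C.cost (flip x i)) ∨
    ∃ i < C.n, step C x = flip x i ∧ C.cost (flip x i) < C.cost x := by
  unfold step
  cases h : (List.range C.n).find? (fun i =>
    decide (val (C.out (flip x i)) < val (C.out x))) with
  | none =>
    left
    refine ⟨rfl, fun i hi => ?_⟩
    rw [List.find?_eq_none] at h
    have := h i (List.mem_range.2 hi)
    rw [decide_eq_true_eq, val_lt_cost] at this
    omega
  | some i =>
    right
    have h1 := List.find?_some h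
    have h2 := List.mem_of_find?_eq_some h
    rw [decide_eq_true_eq, val_lt_cost] at h1
    exact ⟨i, List.mem_range.1 h2, rfl, h1⟩

theorem length_step (C : Circuit) (x : List Bool) : (step C x).length = x.length := by
  rcases step_cases C x with ⟨h, _⟩ | ⟨i, _, h, _⟩
  · rw [h]
  · rw [h, length_flip]

/-- improving flips decrease the potential -/
theorem pot_lt {C : Circuit} (hC : C.Changes 2) {x : List Bool} (hx : x.length = C.n) {i : ℕ}
    (hi : i < C.n) (h : C.cost (flip x i) < C.cost x) : pot C (flip x i) < pot C x := by
  rw [cost_lt_iff] at h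
  obtain ⟨p, hp, h1, h2, h3⟩ := h
  have hD := hC x hx i hi
  set D := (Finset.range C.outs.length).filter fun j =>
      C.outBit (flip x i) j ≠ C.outBit x j with hDdef
  have hpD : p ∈ D := by
    rw [hDdef, Finset.mem_filter, Finset.mem_range]
    refine ⟨hp, ?_⟩
    rw [h1, h2]
    exact Bool.false_ne_true
  have hlow : ∀ r ∈ D.erase p, r < p := by
    intro r hr
    rw [Finset.mem_erase, hDdef, Finset.mem_filter, Finset.mem_range] at hr
    obtain ⟨a1, a2, a3⟩ := hr
    by_contra hcon
    exact a3 (h3 r a2 (by omega))
  have hcard : (D.erase p).card ≤ 1 := by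
    rw [Finset.card_erase_of_mem hpD]
    omega
  unfold pot
  rw [← Finset.sum_filter_add_sum_filter_not (Finset.range C.outs.length)
      (fun j => C.outBit (flip x i) j ≠ C.outBit x j),
    ← Finset.sum_filter_add_sum_filter_not (Finset.range C.outs.length)
      (fun j => C.outBit (flip x i) j ≠ C.outBit x j) (fun p => if C.outBit x p then p + 1 else 0),
    ← hDdef]
  have e1 : ∑ r ∈ (Finset.range C.outs.length).filter
      (fun j => ¬ C.outBit (flip x i) j ≠ C.outBit x j),
        (if C.outBit (flip x i) r then r + 1 else 0) =
      ∑ r ∈ (Finset.range C.outs.length).filter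
      (fun j => ¬ C.outBit (flip x i) j ≠ C.outBit x j),
        (if C.outBit x r then r + 1 else 0) := by
    refine Finset.sum_congr rfl fun r hr => ?_
    rw [Finset.mem_filter, not_not] at hr
    rw [hr.2]
  have e2 : ∑ r ∈ D, (if C.outBit (flip x i) r then r + 1 else 0) ≤ p := by
    rw [← Finset.add_sum_erase D _ hpD, h1]
    refine (Nat.add_le_add_left (Finset.sum_le_card_nsmul (D.erase p) _ p fun r hr => ?_) _).trans
      ?_
    · have := hlow r hr
      split_ifs <;> omega
    · rw [smul_eq_mul]
      have := Nat.mul_le_mul_right p hcard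
      simp only [Bool.false_eq_true, if_false]
      omega
  have e3 : p + 1 ≤ ∑ r ∈ D, (if C.outBit x r then r + 1 else 0) := by
    rw [← Finset.add_sum_erase D _ hpD, h2, if_pos rfl]
    exact Nat.le_add_right _ _
  rw [e1]
  omega

theorem step_min {C : Circuit} {x : List Bool} (h : C.IsLocalMin x) : step C x = x := by
  rcases step_cases C x with ⟨h1, _⟩ | ⟨i, hi, _, h2⟩
  · exact h1
  · have := h.2 i hi
    omega

/-- local search finds a local minimum -/
theorem search_min {C : Circuit} (hC : C.Changes 2) : C.IsLocalMin (search C) := by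
  have key : ∀ k, let y := (List.range k).foldl (fun x _ => step C x) (zeros C.n)
      y.length = C.n ∧ (C.IsLocalMin y ∨ pot C y + k ≤ pot C (zeros C.n)) := by
    intro k
    induction k with
    | zero => exact ⟨length_zeros _, Or.inr le_rfl⟩
    | succ k ih =>
      dsimp only at ih ⊢
      rw [List.range_succ, List.foldl_append]
      change (step C _).length = _ ∧ (C.IsLocalMin (step C _) ∨ pot C (step C _) + _ ≤ _)
      generalize (List.range k).foldl (fun x _ => step C x) (zeros C.n) = y at ih
      obtain ⟨h1, h2⟩ := ih
      refine ⟨by rw [length_step, h1], ?_⟩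
      rcases h2 with h2 | h2
      · left
        rw [step_min h2]
        exact h2
      · rcases step_cases C y with ⟨h3, h4⟩ | ⟨i, hi, h3, h4⟩
        · left
          rw [h3]
          exact ⟨h1, h4⟩
        · right
          rw [h3]
          have := pot_lt hC h1 hi h4
          omega
  obtain ⟨_, h | h⟩ := key (C.outs.length * C.outs.length + 1)
  · exact h
  · have := pot_le C (zeros C.n)
    omega

/-! ### polynomial time -/

section
variable {α : Type} [Enc α]

theorem ptime_step {C : α → Circuit} {x : α → List Bool} (hC : PTime C) (hx : PTime x) :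
    PTime (fun a => step (C a) (x a)) := by
  have hf : PTime (fun p : α × ℕ => flip (x p.1) p.2) :=
    ptime_flip (hx.comp PTime.fst) PTime.snd
  have hlt : PTime₂ (fun (a : α) (i : ℕ) =>
      decide (val ((C a).out (flip (x a) i)) < val ((C a).out (x a)))) := by
    have e1 : PTime (fun p : α × ℕ => val ((C p.1).out (flip (x p.1) p.2))) :=
      (PTime.natOfBits (ptime_out (hC.comp PTime.fst) hf)).of_eq fun p => (val_eq_ofBits _).symm
    have e2 : PTime (fun p : α × ℕ => val ((C p.1).out (x p.1))) :=
      (PTime.natOfBits (ptime_out (hC.comp PTime.fst) (hx.comp PTime.fst))).of_eq fun p =>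
        (val_eq_ofBits _).symm
    exact PTime.lt e1 e2
  refine (PTime.option_cases (PTime.find? (pu_n hC).range hlt) hx hf).of_eq fun a => ?_
  unfold step
  cases (List.range (C a).n).find? (fun i =>
    decide (val ((C a).out (flip (x a) i)) < val ((C a).out (x a)))) <;> rfl

theorem ptime_search : PTime search := by
  have hn := pu_n (PTime.id (α := Circuit))
  have hm := PU.ofLength (ptime_outs (PTime.id (α := Circuit)))
  have hz : PTime (fun C : Circuit => zeros C.n) := ptime_zeros hn
  obtain ⟨F, hF, hFm, hFs⟩ := hz.size_le
  have hr : PTime (fun C : Circuit => List.range (C.outs.length * C.outs.length + 1)) :=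
    ((hm.mul hm).add (PU.const 1)).range
  refine PTime.foldl (h := fun (C : Circuit) (x : List Bool) (_ : ℕ) => step C x) hr hz
    (ptime_step PTime.fst (PTime.fst' PTime.snd)) (B := fun n => F n * 4 + 1) ?_ ?_
  · exact (hF.mul (PBd.const 4)).add (PBd.const 1)
  · intro C l₁ l₂ _
    have hlen : ∀ (l : List ℕ) (y : List Bool),
        (l.foldl (fun x _ => step C x) y).length = y.length := by
      intro l
      induction l with
      | nil => intro y; rfl
      | cons a l ih =>
        intro y
        rw [List.foldl_cons, ih, length_step]
    refine (size_list_le _ 3 fun b _ => size_bool b).trans ?_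
    rw [hlen]
    have h3 := length_le_size (zeros C.n)
    have h4 := hFs C
    have h6 : (zeros C.n).length ≤ F (size (enc C)) := by omega
    have := Nat.mul_le_mul_right 4 h6
    omega

end

/-- at most two outputs change: there is a polynomial-time solver -/
theorem easy2 : HasSolver (Circuit.Changes 2) :=
  ⟨search, ptime_search.isPolyTime, fun _ _ h => search_min h⟩

theorem influence_changes {k : ℕ} {C : Circuit} (h : C.Influence k) : C.Changes k := by
  intro x hx i hi
  obtain ⟨S, hS, hS'⟩ := h i hi
  refine (Finset.card_le_card fun j hj => ?_).trans hS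
  rw [Finset.mem_filter, Finset.mem_range] at hj
  exact hS' j hj.1 ⟨x, hx, hj.2⟩

theorem influence_mono {k l : ℕ} (hkl : k ≤ l) {C : Circuit} (h : C.Influence k) :
    C.Influence l := by
  intro i hi
  obtain ⟨S, hS, hS'⟩ := h i hi
  exact ⟨S, hS.trans hkl, hS'⟩

theorem changes_mono {k l : ℕ} (hkl : k ≤ l) {C : Circuit} (h : C.Changes k) : C.Changes l :=
  fun x hx i hi => (h x hx i hi).trans hkl

end Pool.Agent.MPa0a715.IN
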