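import Pool.Agent.Lib.MP_a0a715_lc_TL.PTNext
import Pool.Agent.Lib.MP_a0a715_lc_IN.Red
import Pool.Agent.Lib.MP_a0a715_lc.Easy

/-!
# The reduction is computed in polynomial time
-/

namespace Pool.Agent.MPa0a715.IN

open Pool.Agent.MPa0a715 Pool.Agent.PolyTime
open Pool.Agent.MPa0a715.TL (nextC ptime_nextC)

section
variable {α : Type} [Enc α]

theorem ptime_lit {s i : α → ℕ} (hs : PTime s) (hi : PTime i) :
    PTime (fun a => lit (s a) (i a)) :=
  (ptime_ite_eq hs (b := 1) (PTime.const 0) (PTime.const 1)).pair hi

theorem ptime_chf {T B t : α → ℕ} (hT : PTime T) (hB : PTime B) (ht : PTime t) :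
    PTime (fun a => chf (T a) (B a) (t a)) := by
  have hr : PTime (fun a => t a % 4) := ht.mod (PTime.const 4)
  have hq : PTime (fun a => t a / 4) := ht.div (PTime.const 4)
  have hnil : PTime (fun _ : α => ([] : List Name)) := PTime.const _
  have n6 : PTime (fun a => [((6, T a) : Name)]) := ((PTime.const 6).pair hT).cons hnil
  have t2 : PTime (fun a => ((8, t a - 2) : Name)) := (PTime.const 8).pair (ht.sub (PTime.const 2))
  have t1 : PTime (fun a => ((8, t a - 1) : Name)) := (PTime.const 8).pair (ht.sub (PTime.const 1))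
  have hi : PTime (fun a => B a + (T a - t a / 4)) := hB.add (hT.sub hq)
  have l1 : PTime (fun a => if t a / 4 = 0 then [((6, T a) : Name)]
      else [(8, t a - 2), (1, B a + (T a - t a / 4))]) :=
    ptime_ite_eq hq n6 (t2.cons (((PTime.const 1).pair hi).cons hnil))
  have l0 : PTime (fun a => if t a / 4 = 0 then [((6, T a) : Name)]
      else [(8, t a - 2), (0, B a + (T a - t a / 4))]) :=
    ptime_ite_eq hq n6 (t2.cons (((PTime.const 0).pair hi).cons hnil))
  exact ptime_ite_eq hr (b := 0) ((PTime.const (some true)).pair l1)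
    (ptime_ite_eq hr (b := 1) ((PTime.const (some true)).pair l0)
      (ptime_ite_eq hr (b := 2) ((PTime.const (some false)).pair (t2.cons (t1.cons hnil)))
        ((PTime.const none).pair (t1.cons hnil))))

theorem ptime_cgf {b : ℕ} {base n t : α → ℕ} {G : α → List Gate} (hb : PTime base)
    (hn : PTime n) (hG : PTime G) (ht : PTime t) :
    PTime (fun a => cgf b (base a) (n a) (G a) (t a)) := by
  have hnil : PTime (fun _ : α => ([] : List Name)) := PTime.const _
  have e1 : PTime (fun a => ((some true, [(0, base a + t a)]) : Option Bool × List Name)) :=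
    (PTime.const (some true)).pair (((PTime.const 0).pair (hb.add ht)).cons hnil)
  have hg : PTime (fun a => (G a)[t a - n a]?) := PTime.getElem? hG (ht.sub hn)
  have hc : PTime (fun p : α × Gate => p.2.code) := ptime_code PTime.snd
  have hk : PTime (fun p : α × Gate => p.2.code.1) := hc.fst'
  have hi : PTime (fun p : α × Gate => p.2.code.2.1) := hc.snd'.fst'
  have hj : PTime (fun p : α × Gate => p.2.code.2.2) := hc.snd'.snd'
  have hnil' : PTime (fun _ : α × Gate => ([] : List Name)) := PTime.const _
  have ni : PTime (fun p : α × Gate => ((b, p.2.code.2.1) : Name)) := (PTime.const b).pair hi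
  have nj : PTime (fun p : α × Gate => ((b, p.2.code.2.2) : Name)) := (PTime.const b).pair hj
  have f1 : PTime (fun p : α × Gate => ((some true, [(b, p.2.code.2.1), (b, p.2.code.2.2)]) :
      Option Bool × List Name)) := (PTime.const (some true)).pair (ni.cons (nj.cons hnil'))
  have f2 : PTime (fun p : α × Gate => ((some false, [(b, p.2.code.2.1), (b, p.2.code.2.2)]) :
      Option Bool × List Name)) := (PTime.const (some false)).pair (ni.cons (nj.cons hnil'))
  have f3 : PTime (fun p : α × Gate => ((none, [(b, p.2.code.2.1)]) :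
      Option Bool × List Name)) := (PTime.const none).pair (ni.cons hnil')
  have f := ptime_ite_eq hk (b := some true) f1 (ptime_ite_eq hk (b := some false) f2 f3)
  have h2 := PTime.option_cases hg (PTime.const ((some true, [(0, 0)]) :
    Option Bool × List Name)) f
  refine (PTime.iteP (PTime.lt ht hn) e1 h2).of_eq fun a => ?_
  unfold cgf
  congr 1
  cases (G a)[t a - n a]? with
  | none => rfl
  | some g => cases g <;> rfl

theorem ptime_wi {m B t : α → ℕ} (hm : PTime m) (hB : PTime B) (ht : PTime t) :
    PTime (fun a => wi (m a) (B a) (t a)) := by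
  have h2 : PTime (fun a => t a / 2) := ht.div (PTime.const 2)
  have hm2 : PTime (fun a => 2 * m a) := (PTime.const 2).mul hm
  exact PTime.iteP (PTime.lt h2 hm2)
    ((((PTime.const 2).add (h2.mod (PTime.const 2))).mul hB).add (h2.div (PTime.const 2)))
    ((((PTime.const 4).add ((PTime.const 1).sub (ht.mod (PTime.const 2)))).mul hB).add
      (h2.sub hm2))

theorem ptime_wc {m t : α → ℕ} (hm : PTime m) (ht : PTime t) :
    PTime (fun a => wc (m a) (t a)) := by
  have h2 : PTime (fun a => t a / 2) := ht.div (PTime.const 2)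
  have hm2 : PTime (fun a => 2 * m a) := (PTime.const 2).mul hm
  exact PTime.iteP (PTime.lt h2 hm2) ((PTime.const 1).sub (ht.mod (PTime.const 2)))
    (ht.mod (PTime.const 2))

theorem ptime_wo {n m t : α → ℕ} {O : α → List ℕ} (hn : PTime n) (hm : PTime m) (hO : PTime O)
    (ht : PTime t) : PTime (fun a => wo (n a) (m a) (O a) (t a)) := by
  have h2 : PTime (fun a => t a / 2) := ht.div (PTime.const 2)
  have hm2 : PTime (fun a => 2 * m a) := (PTime.const 2).mul hm
  exact PTime.listGetD hO (PTime.iteP (PTime.lt h2 hm2) (hn.add (h2.div (PTime.const 2)))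
    (h2.sub hm2)) (PTime.const 0)

theorem ptime_outf {L T p : α → ℕ} (hL : PTime L) (hT : PTime T) (hp : PTime p) :
    PTime (fun a => outf (L a) (T a) (p a)) := by
  have hnil : PTime (fun _ : α => ([] : List Name)) := PTime.const _
  have h2 : PTime (fun a => p a / 2) := hp.div (PTime.const 2)
  have h21 : PTime (fun a => p a / 2 - 1) := h2.sub (PTime.const 1)
  have h2L : PTime (fun a => p a / 2 - L a) := h2.sub hL
  exact ptime_ite_eq hp (b := 0) (PTime.const _) (ptime_ite_eq (hp.mod (PTime.const 2)) (b := 1)
    (PTime.iteP (PTime.lt h2 hL) (((PTime.const 5).pair h2).cons hnil)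
      (PTime.iteP (PTime.lt h2 hT) (((PTime.const 23).pair h2L).cons
        (((PTime.const 24).pair h2L).cons hnil)) (((PTime.const 6).pair hT).cons hnil)))
    (PTime.iteP (PTime.lt h21 hT) (((PTime.const 21).pair h21).cons
      (((PTime.const 22).pair h21).cons hnil)) (PTime.const _)))

theorem ptime_iblocks {n m : α → ℕ} {G : α → List Gate} {O : α → List ℕ} (hn : PU n)
    (hm : PU m) (hG : PTime G) (hO : PTime O) :
    PTime (fun a => toG 1 (iblocks (n a) (m a) (n a + 2 * m a) (n a + 3 * m a)
      (n a + 3 * m a + 1) (G a) (O a))) := by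
  have uL : PU (fun a => n a + 2 * m a) := hn.add ((PU.const 2).mul hm)
  have uT : PU (fun a => n a + 3 * m a) := hn.add ((PU.const 3).mul hm)
  have uB : PU (fun a => n a + 3 * m a + 1) := uT.add (PU.const 1)
  have u1 : PU (fun _ : α => 1) := PU.const 1
  have uB6 : PU (fun a => 6 * (n a + 3 * m a + 1)) := (PU.const 6).mul uB
  have um4 : PU (fun a => 4 * (m a + 1)) := (PU.const 4).mul (hm.add (PU.const 1))
  have uG : PU (fun a => n a + (G a).length) := hn.add (PU.ofLength hG)
  have uL2 : PU (fun a => 2 * (n a + 2 * m a)) := (PU.const 2).mul uL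
  have um8 : PU (fun a => 8 * m a) := (PU.const 8).mul hm
  have uT3 : PU (fun a => 2 * (n a + 3 * m a) + 3) := ((PU.const 2).mul uT).add (PU.const 3)
  have ht : PTime (fun p : α × ℕ => p.2) := PTime.snd
  have pn : PTime (fun p : α × ℕ => n p.1) := hn.toNat.comp PTime.fst
  have pm : PTime (fun p : α × ℕ => m p.1) := hm.toNat.comp PTime.fst
  have pL : PTime (fun p : α × ℕ => n p.1 + 2 * m p.1) := uL.toNat.comp PTime.fst
  have pT : PTime (fun p : α × ℕ => n p.1 + 3 * m p.1) := uT.toNat.comp PTime.fst
  have pB : PTime (fun p : α × ℕ => n p.1 + 3 * m p.1 + 1) := uB.toNat.comp PTime.fst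
  have pG : PTime (fun p : α × ℕ => G p.1) := hG.comp PTime.fst
  have pO : PTime (fun p : α × ℕ => O p.1) := hO.comp PTime.fst
  have t2 : PTime (fun p : α × ℕ => p.2 / 2) := ht.div (PTime.const 2)
  have t2m : PTime (fun p : α × ℕ => p.2 % 2) := ht.mod (PTime.const 2)
  have t8 : PTime (fun p : α × ℕ => p.2 / 8) := ht.div (PTime.const 8)
  have t42 : PTime (fun p : α × ℕ => p.2 / 4 % 2) :=
    (ht.div (PTime.const 4)).mod (PTime.const 2)
  have t22 : PTime (fun p : α × ℕ => p.2 / 2 % 2) := t2.mod (PTime.const 2)
  have b6 : PTime (fun p : α × ℕ => if p.2 < n p.1 + 2 * m p.1 then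
      ((0, n p.1 + 3 * m p.1 + 1 + p.2) : Name) else (5, p.2)) :=
    PTime.iteP (PTime.lt ht pL) ((PTime.const 0).pair (pB.add ht)) ((PTime.const 5).pair ht)
  have c8 := ptime_chf pT pB ht
  have c9 : PTime (fun p : α × ℕ => cgf 9 (4 * (n p.1 + 3 * m p.1 + 1)) (n p.1) (G p.1) p.2) :=
    ptime_cgf ((PTime.const 4).mul pB) pn pG ht
  have c10 : PTime (fun p : α × ℕ => cgf 10 (5 * (n p.1 + 3 * m p.1 + 1)) (n p.1) (G p.1) p.2) :=
    ptime_cgf ((PTime.const 5).mul pB) pn pG ht
  have cwi := ptime_wi pm pB ht
  have cwc := ptime_wc pm ht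
  have cwo := ptime_wo pn pm pO ht
  have l16 : PTime (fun p : α × ℕ =>
      lit (p.2 % 2) ((2 + p.2 / 4 % 2) * (n p.1 + 3 * m p.1 + 1) + p.2 / 8)) :=
    ptime_lit t2m ((((PTime.const 2).add t42).mul pB).add t8)
  have n16a : PTime (fun p : α × ℕ => 4 * (m p.1 - p.2 / 8) + (3 - p.2 / 4 % 2)) :=
    ((PTime.const 4).mul (pm.sub t8)).add ((PTime.const 3).sub t42)
  have n16b : PTime (fun p : α × ℕ => 4 * m p.1 + (3 - p.2 / 2 % 2)) :=
    ((PTime.const 4).mul pm).add ((PTime.const 3).sub t22)
  have n16c : PTime (fun p : α × ℕ => 9 + 2 * (p.2 % 2) + p.2 / 2 % 2) :=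
    ((PTime.const 9).add ((PTime.const 2).mul t2m)).add t22
  have n16d : PTime (fun p : α × ℕ => (O p.1).getD (n p.1 + p.2 / 8) 0) :=
    PTime.listGetD pO (pn.add t8) (PTime.const 0)
  have n17a : PTime (fun p : α × ℕ => 4 * m p.1 + (3 - p.2 % 2)) :=
    ((PTime.const 4).mul pm).add ((PTime.const 3).sub t2m)
  have n17b : PTime (fun p : α × ℕ => if p.2 / 2 < 2 * m p.1 then
      4 * (m p.1 - p.2 / 2 / 2) + (2 + p.2 / 2 % 2) else 4 * m p.1 + (3 - p.2 % 2)) :=
    PTime.iteP (PTime.lt t2 ((PTime.const 2).mul pm))
      (((PTime.const 4).mul (pm.sub (t2.div (PTime.const 2)))).add ((PTime.const 2).add t22)) n17a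
  have fl : PTime (fun p : α × ℕ => (List.range (n p.1 + 2 * m p.1)).filter
      (fun i => decide (p.2 / 2 ≤ i))) :=
    PTime.filter (g := fun (p : α × ℕ) (i : ℕ) => decide (p.2 / 2 ≤ i))
      (uL.range.comp PTime.fst) (PTime.le (t2.comp PTime.fst) PTime.snd)
  have l17 : PTime (fun p : α × ℕ => ((List.range (n p.1 + 2 * m p.1)).filter
      (fun i => decide (p.2 / 2 ≤ i))).map (fun i => lit (p.2 % 2) (n p.1 + 3 * m p.1 + 1 + i))) :=
    PTime.map (g := fun (p : α × ℕ) (i : ℕ) => lit (p.2 % 2) (n p.1 + 3 * m p.1 + 1 + i)) fl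
      (ptime_lit (t2m.comp PTime.fst) ((pB.comp PTime.fst).add PTime.snd))
  have l18 : PTime (fun p : α × ℕ => ((List.range (n p.1 + 2 * m p.1)).filter
      (fun i => decide (p.2 / 2 ≤ i))).map (fun i => lit (p.2 % 2) i)) :=
    PTime.map (g := fun (p : α × ℕ) (i : ℕ) => lit (p.2 % 2) i) fl
      (ptime_lit (t2m.comp PTime.fst) PTime.snd)
  have n18 : PTime (fun p : α × ℕ => if p.2 / 2 = 0 then ((15, p.2) : Name)
      else lit (1 - p.2 % 2) (p.2 / 2 - 1)) :=
    ptime_ite_eq t2 ((PTime.const 15).pair ht)
      (ptime_lit ((PTime.const 1).sub t2m) (t2.sub (PTime.const 1)))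
  have r8 : PTime (fun p : α × ℕ => List.range (8 * m p.1)) := um8.range.comp PTime.fst
  have rL : PTime (fun p : α × ℕ => List.range (2 * (n p.1 + 2 * m p.1))) :=
    uL2.range.comp PTime.fst
  have c25 := ptime_outf pL pT ht
  unfold iblocks
  iterate 25
    refine ptime_toG_cons ?_ ?_ ?_
    · first
      | exact u1
      | exact uB
      | exact uB6
      | exact um4
      | exact uG
      | exact uL2
      | exact um8
      | exact uT
      | exact hm
      | exact uT3
    · try dsimp only [one]
      first
      | exact PTime.const _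
      | exact c8
      | exact c9
      | exact c10
      | (repeat' first
          | exact PTime.const _
          | exact ht
          | exact pn
          | exact pm
          | exact pL
          | exact pT
          | exact pB
          | exact b6
          | exact cwi
          | exact cwc
          | exact cwo
          | exact l16
          | exact n16a
          | exact n16b
          | exact n16c
          | exact n16d
          | exact n17a
          | exact n17b
          | exact l17
          | exact l18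
          | exact n18
          | exact r8
          | exact rL
          | exact c25
          | apply ptime_ws
          | apply PTime.pair
          | apply PTime.cons
          | apply PTime.append
          | apply PTime.add
          | apply PTime.mul)
  exact PTime.const _

theorem ptime_red {f : α → Circuit} (hf : PTime f) : PTime (fun a => red (f a)) := by
  have hn := pu_n hf
  have hm := PU.ofLength (ptime_outs hf)
  have hN := ptime_nextC hf
  have hin : PTime (fun a => ins (f a)) :=
    PTime.map (g := fun (_ : α) (i : ℕ) => ((0, i) : Name))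
      ((PU.const 6).mul ((hn.add ((PU.const 3).mul hm)).add (PU.const 1))).range
      ((PTime.const 0).pair PTime.snd)
  have hout : PTime (fun a => ots (f a)) :=
    ptime_ws (((PU.const 2).mul (hn.add ((PU.const 3).mul hm))).add (PU.const 3)).range
  exact ptime_compile hin (ptime_iblocks hn hm (ptime_gates hN) (ptime_outs hN)) hout

theorem ptime_win {n m : α → ℕ} {y : α → List Bool} (hn : PU n) (hm : PU m) (hy : PTime y) :
    PTime (fun a => win (n a) (m a) (y a)) := by
  have uT : PU (fun a => n a + 3 * m a) := hn.add ((PU.const 3).mul hm)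
  have uB : PU (fun a => n a + 3 * m a + 1) := uT.add (PU.const 1)
  have h0 : PTime (fun a => ((y a).getD (n a + 3 * m a) false !=
      (y a).getD (n a + 3 * m a + 1 + (n a + 3 * m a)) false)) :=
    PTime.xor (PTime.listGetD hy uT.toNat (PTime.const false))
      (PTime.listGetD hy (uB.toNat.add uT.toNat) (PTime.const false))
  refine PTime.foldFinite (h := fun a acc r => (acc != (y a).getD (n a + 3 * m a + 1 +
    (n a + 3 * m a - (r + 1))) false)) hm.range h0 ?_
  have hr : PTime (fun p : α × (Bool × ℕ) => p.2.2) := PTime.snd' PTime.snd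
  exact PTime.xor (PTime.fst' PTime.snd) (PTime.listGetD (hy.comp PTime.fst)
    ((uB.toNat.comp PTime.fst).add ((uT.toNat.comp PTime.fst).sub (hr.add (PTime.const 1))))
    (PTime.const false))

theorem ptime_dec {n m : α → ℕ} {y : α → List Bool} (hn : PU n) (hm : PU m) (hy : PTime y) :
    PTime (fun a => dec (n a) (m a) (y a)) := by
  have uB : PU (fun a => n a + 3 * m a + 1) := (hn.add ((PU.const 3).mul hm)).add (PU.const 1)
  have hw := ptime_win hn hm hy
  refine PTime.map (g := fun (a : α) (i : ℕ) => (y a).getD ((if win (n a) (m a) (y a) then 5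
    else 4) * (n a + 3 * m a + 1) + i) false) hn.range ?_
  have h1 : PTime (fun p : α × ℕ => if win (n p.1) (m p.1) (y p.1) then 5 else 4) :=
    ptime_ite_eq (hw.comp PTime.fst) (PTime.const 5) (PTime.const 4)
  exact PTime.listGetD (hy.comp PTime.fst) ((h1.mul (uB.toNat.comp PTime.fst)).add PTime.snd)
    (PTime.const false)

end

/-- Circuit-FLIP reduces to circuits in which every input influences at most three outputs -/
theorem hard : PLSReduces (fun _ => True) (Circuit.Influence 3) := by
  have hn := pu_n (PTime.id (α := Circuit))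
  have hm := PU.ofLength (ptime_outs (PTime.id (α := Circuit)))
  have h0 : PTime (fun C : Circuit => decide (C.n = 0)) := PTime.eq hn.toNat (PTime.const 0)
  refine ⟨fun C => if C.n = 0 then ⟨0, [], []⟩ else red C,
    fun p => if p.1.n = 0 then [] else dec p.1.n p.1.outs.length p.2, ?_, ?_, ?_⟩
  · exact (PTime.iteP h0 (PTime.const _) (ptime_red PTime.id)).isPolyTime
  · exact (PTime.iteP (h0.comp PTime.fst) (PTime.const _)
      (ptime_dec (hn.comp PTime.fst) (hm.comp PTime.fst) PTime.snd)).isPolyTime
  · intro C hC _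
    dsimp only
    split_ifs with h1
    · refine ⟨⟨fun k hk => absurd hk (Nat.not_lt_zero k), fun o ho => absurd ho
        List.not_mem_nil⟩, fun i hi => absurd hi (Nat.not_lt_zero i), fun y _ => ?_⟩
      exact ⟨h1.symm, fun i hi => absurd hi (by omega)⟩
    · have h2 : 0 < C.n := by omega
      exact ⟨red_valid hC h2, red_influence hC h2, fun y hy => dec_min hC h2 hy⟩

end Pool.Agent.MPa0a715.IN
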