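import Mathlib

/-!
# A lexicographic local search problem in which every variable influences three outputs
-/

namespace Pool.Agent.MPa0a715.IN

/-- the data: number of inputs, number of cost digits, next solution, cost digits -/
structure Par where
  n : ℕ
  m : ℕ
  nx : (ℕ → Bool) → ℕ → Bool
  cs : (ℕ → Bool) → ℕ → Bool
  hnx : ∀ v v' : ℕ → Bool, (∀ i < n, v i = v' i) → nx v = nx v'
  hcs : ∀ v v' : ℕ → Bool, (∀ i < n, v i = v' i) → cs v = cs v'

/-- flip one bit -/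
def fl (X : ℕ → Bool) (i : ℕ) : ℕ → Bool := fun j => if j = i then !X j else X j

namespace Par

variable (P : Par)

/-- number of clock steps -/
def L : ℕ := P.n + 2 * P.m
/-- index of the top of the chain -/
def T : ℕ := P.n + 3 * P.m
/-- number of variables of a kind -/
def B : ℕ := P.n + 3 * P.m + 1

/-- variable of kind `κ` -/
def a (X : ℕ → Bool) (κ i : ℕ) : Bool := X (κ * P.B + i)

theorem a_fl {X : ℕ → Bool} {κ κ₀ i i₀ : ℕ} (hi : i < P.B) (hi₀ : i₀ < P.B) :
    P.a (fl X (κ₀ * P.B + i₀)) κ i = if κ = κ₀ ∧ i = i₀ then !P.a X κ i else P.a X κ i := by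
  unfold a fl
  by_cases h : κ = κ₀ ∧ i = i₀
  · rw [if_pos h, if_pos (by rw [h.1, h.2])]
  · rw [if_neg h, if_neg]
    intro h1
    apply h
    have h2 : κ = κ₀ := by
      have e1 : (κ * P.B + i) / P.B = κ := by
        rw [Nat.mul_comm, Nat.mul_add_div (by omega), Nat.div_eq_of_lt hi, Nat.add_zero]
      have e2 : (κ₀ * P.B + i₀) / P.B = κ₀ := by
        rw [Nat.mul_comm, Nat.mul_add_div (by omega), Nat.div_eq_of_lt hi₀, Nat.add_zero]
      rw [← e1, ← e2, h1]
    rw [h2] at h1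
    exact ⟨h2, by omega⟩

/-- follower variables: clock copies below `L`, selector copies from `L` on -/
def f (X : ℕ → Bool) (t : ℕ) : Bool := P.a X 0 t
/-- clock bits below `L`, changes of the selector from `L` on -/
def g (X : ℕ → Bool) (t : ℕ) : Bool := P.a X 1 t
/-- stored cost digits of the two slots -/
def z (X : ℕ → Bool) (s : Bool) (j : ℕ) : Bool := P.a X (2 + s.toNat) j
/-- stored solutions of the two slots -/
def v (X : ℕ → Bool) (s : Bool) (i : ℕ) : Bool := P.a X (4 + s.toNat) i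

/-- the value passed down the chain -/
def c (X : ℕ → Bool) (t : ℕ) : Bool := if t < P.L then P.g X t else (P.f X t != P.g X t)

/-- the selectors computed from the top -/
def Ar (X : ℕ → Bool) : ℕ → Bool
  | 0 => P.c X P.T
  | r + 1 => (Ar X r != P.g X (P.T - (r + 1)))

/-- the selector of digit `j` -/
def AA (X : ℕ → Bool) (j : ℕ) : Bool := P.Ar X (P.m - j)

/-- the winning slot -/
def w (X : ℕ → Bool) : Bool := P.Ar X P.m

/-- the variable of step `k` is wrong, the winner being `ω` -/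
def wrong (X : ℕ → Bool) (ω : Bool) (k : ℕ) : Prop :=
  if k < 2 * P.m then P.z X (decide (k % 2 = 1)) (k / 2) ≠ P.cs (P.v X (!ω)) (k / 2)
  else P.v X (!ω) (k - 2 * P.m) ≠ P.nx (P.v X ω) (k - 2 * P.m)

/-- the variable of step `k` is not displayed -/
def free (X : ℕ → Bool) (k : ℕ) : Prop := k < 2 * P.m → P.AA X (k / 2) ≠ decide (k % 2 = 1)

def V1 (X : ℕ → Bool) : Prop :=
  P.c X P.T = false ∧ ∃ j < P.m, P.z X (P.AA X j) j ≠ P.cs (P.v X (P.w X)) j

def V2 (X : ℕ → Bool) : Prop :=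
  ∃ k < P.L, (∀ i, k ≤ i → i < P.L → P.g X i = P.w X) ∧ P.free X k ∧ P.wrong X (P.w X) k

def PP (X : ℕ → Bool) : Prop :=
  ∃ k < P.L, (∀ i, k ≤ i → i < P.L → P.f X i = P.f X (P.L - 1)) ∧
    (0 < k → P.f X (k - 1) ≠ P.f X (P.L - 1)) ∧ P.wrong X (P.f X (P.L - 1)) k

/-- the outputs -/
def O (X : ℕ → Bool) (p : ℕ) : Prop :=
  if p = 0 then P.PP X else
  if p % 2 = 1 then
    if p / 2 < P.L then P.g X (p / 2) ≠ P.f X (p / 2)
    else if p / 2 < P.T then P.z X (P.c X (p / 2)) (p / 2 - P.L) = true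
    else P.c X P.T = true
  else if p / 2 - 1 < P.T then P.f X (p / 2 - 1) ≠ P.c X (p / 2)
  else P.V1 X ∨ P.V2 X

/-- number of outputs -/
def M : ℕ := 2 * P.T + 3

variable {P} {X Y : ℕ → Bool}

theorem LT : P.T = P.L + P.m := by unfold T L; omega
theorem BT : P.B = P.T + 1 := rfl

theorem O_zero : P.O X 0 ↔ P.PP X := by unfold O; rw [if_pos rfl]

theorem O_odd (t : ℕ) : P.O X (2 * t + 1) ↔
    if t < P.L then P.g X t ≠ P.f X t
    else if t < P.T then P.z X (P.c X t) (t - P.L) = true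
    else P.c X P.T = true := by
  unfold O
  rw [if_neg (by omega), if_pos (by omega), show (2 * t + 1) / 2 = t by omega]

theorem O_even (t : ℕ) : P.O X (2 * t + 2) ↔
    if t < P.T then P.f X t ≠ P.c X (t + 1) else P.V1 X ∨ P.V2 X := by
  unfold O
  rw [if_neg (by omega), if_neg (by omega), show (2 * t + 2) / 2 - 1 = t by omega,
    show (2 * t + 2) / 2 = t + 1 by omega]

theorem O_Q {t : ℕ} (h : t < P.L) : P.O X (2 * t + 1) ↔ P.g X t ≠ P.f X t := by
  rw [O_odd, if_pos h]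

theorem O_O {t : ℕ} (h : P.L ≤ t) (h' : t < P.T) :
    P.O X (2 * t + 1) ↔ P.z X (P.c X t) (t - P.L) = true := by
  rw [O_odd, if_neg (by omega), if_pos h']

theorem O_R : P.O X (2 * P.T + 1) ↔ P.c X P.T = true := by
  rw [O_odd, if_neg (by rw [LT]; omega), if_neg (by omega)]

theorem O_E {t : ℕ} (h : t < P.T) : P.O X (2 * t + 2) ↔ P.f X t ≠ P.c X (t + 1) := by
  rw [O_even, if_pos h]

theorem O_V : P.O X (2 * P.T + 2) ↔ P.V1 X ∨ P.V2 X := by
  rw [O_even, if_neg (by omega)]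

/-! ### congruence -/

theorem c_congr {t : ℕ} (hf : P.L ≤ t → P.f X t = P.f Y t) (hg : P.g X t = P.g Y t) :
    P.c X t = P.c Y t := by
  unfold c
  split_ifs with h
  · exact hg
  · rw [hf (by omega), hg]

theorem Ar_congr (hf : P.f X P.T = P.f Y P.T) (hg : ∀ t ≤ P.T, P.g X t = P.g Y t) (r : ℕ) :
    P.Ar X r = P.Ar Y r := by
  induction r with
  | zero => exact c_congr (fun _ => hf) (hg _ le_rfl)
  | succ r ih =>
    unfold Ar
    rw [ih, hg _ (by omega)]

theorem cs_congr {s : Bool} (hv : ∀ i < P.n, P.v X s i = P.v Y s i) :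
    P.cs (P.v X s) = P.cs (P.v Y s) := P.hcs _ _ hv

theorem nx_congr {s : Bool} (hv : ∀ i < P.n, P.v X s i = P.v Y s i) :
    P.nx (P.v X s) = P.nx (P.v Y s) := P.hnx _ _ hv

theorem wrong_congr {ω : Bool} {k : ℕ} (hk : k < P.L)
    (hz : ∀ s, ∀ j < P.m, P.z X s j = P.z Y s j)
    (hv : ∀ s, ∀ i < P.n, P.v X s i = P.v Y s i) : P.wrong X ω k ↔ P.wrong Y ω k := by
  unfold wrong
  have hL : P.L = P.n + 2 * P.m := rfl
  split_ifs with h
  · rw [hz _ _ (by omega), cs_congr (hv (!ω))]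
  · rw [hv _ _ (by omega), nx_congr (hv ω)]

theorem V_congr (hf : P.f X P.T = P.f Y P.T) (hg : ∀ t ≤ P.T, P.g X t = P.g Y t)
    (hz : ∀ s, ∀ j < P.m, P.z X s j = P.z Y s j)
    (hv : ∀ s, ∀ i < P.n, P.v X s i = P.v Y s i) :
    (P.V1 X ∨ P.V2 X) ↔ (P.V1 Y ∨ P.V2 Y) := by
  have hA : P.Ar X = P.Ar Y := funext (Ar_congr hf hg)
  have hAA : P.AA X = P.AA Y := by
    funext j
    unfold AA
    rw [hA]
  have hw : P.w X = P.w Y := by
    unfold w
    rw [hA]
  have hc : P.c X P.T = P.c Y P.T := c_congr (fun _ => hf) (hg _ le_rfl)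
  have hLT := LT (P := P)
  refine or_congr ?_ ?_
  · unfold V1
    rw [hAA, hw, hc, cs_congr (hv _)]
    refine and_congr_right fun _ => exists_congr fun j => and_congr_right fun hj => ?_
    rw [hz _ _ hj]
  · unfold V2 free
    rw [hAA, hw]
    refine exists_congr fun k => and_congr_right fun hk => and_congr ?_
      (and_congr_right fun _ => wrong_congr hk hz hv)
    refine forall_congr' fun i => imp_congr_right fun _ => imp_congr_right fun h => ?_
    rw [hg _ (by omega)]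

theorem PP_congr (hf : ∀ t < P.L, P.f X t = P.f Y t)
    (hz : ∀ s, ∀ j < P.m, P.z X s j = P.z Y s j)
    (hv : ∀ s, ∀ i < P.n, P.v X s i = P.v Y s i) : P.PP X ↔ P.PP Y := by
  unfold PP
  refine exists_congr fun k => and_congr_right fun hk => ?_
  have h1 : P.f X (P.L - 1) = P.f Y (P.L - 1) := hf _ (by omega)
  rw [h1, hf (k - 1) (by omega)]
  refine and_congr ?_ (and_congr_right fun _ => wrong_congr hk hz hv)
  refine forall_congr' fun i => imp_congr_right fun _ => imp_congr_right fun h => ?_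
  rw [hf _ h]

/-! ### the effect of flips -/

/-- outputs influenced by a variable -/
def infl (P : Par) (i : ℕ) : Finset ℕ :=
  if i < P.B then {2 * i + 2, 2 * i + 1, if i < P.L then 0 else 2 * i}
  else if i < 2 * P.B then {2 * P.T + 2, 2 * (i - P.B) + 1, 2 * (i - P.B)}
  else if i < 4 * P.B then {2 * P.T + 2, 0, 2 * (P.L + i % P.B) + 1}
  else {2 * P.T + 2, 0}

theorem infl_card (i : ℕ) : (P.infl i).card ≤ 3 := by
  unfold infl
  split_ifs
  · exact Finset.card_le_three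
  · exact Finset.card_le_three
  · exact Finset.card_le_three
  · exact Finset.card_le_three
  · exact Finset.card_le_two.trans (by omega)

theorem flip_f {t₀ : ℕ} (h : t₀ < P.B) :
    (∀ t < P.B, P.f (fl X t₀) t = if t = t₀ then !P.f X t else P.f X t) ∧
    (∀ t < P.B, P.g (fl X t₀) t = P.g X t) ∧
    (∀ s, ∀ j < P.B, P.z (fl X t₀) s j = P.z X s j) ∧
    (∀ s, ∀ j < P.B, P.v (fl X t₀) s j = P.v X s j) := by
  have e : t₀ = 0 * P.B + t₀ := by omega
  rw [e]
  refine ⟨fun t ht => ?_, fun t ht => ?_, fun s t ht => ?_, fun s t ht => ?_⟩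
  · unfold f
    rw [P.a_fl ht h]
    simp
  · unfold g
    rw [P.a_fl ht h]
    simp
  · unfold z
    rw [P.a_fl ht h]
    simp
  · unfold v
    rw [P.a_fl ht h]
    simp

theorem flip_g {t₀ : ℕ} (h : t₀ < P.B) :
    (∀ t < P.B, P.f (fl X (P.B + t₀)) t = P.f X t) ∧
    (∀ t < P.B, P.g (fl X (P.B + t₀)) t = if t = t₀ then !P.g X t else P.g X t) ∧
    (∀ s, ∀ j < P.B, P.z (fl X (P.B + t₀)) s j = P.z X s j) ∧
    (∀ s, ∀ j < P.B, P.v (fl X (P.B + t₀)) s j = P.v X s j) := by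
  have e : P.B + t₀ = 1 * P.B + t₀ := by omega
  rw [e]
  refine ⟨fun t ht => ?_, fun t ht => ?_, fun s t ht => ?_, fun s t ht => ?_⟩
  · unfold f
    rw [P.a_fl ht h]
    simp
  · unfold g
    rw [P.a_fl ht h]
    simp
  · unfold z
    rw [P.a_fl ht h, if_neg (by omega)]
  · unfold v
    rw [P.a_fl ht h, if_neg (by omega)]

theorem flip_z {s₀ : Bool} {t₀ : ℕ} (h : t₀ < P.B) :
    (∀ t < P.B, P.f (fl X ((2 + s₀.toNat) * P.B + t₀)) t = P.f X t) ∧
    (∀ t < P.B, P.g (fl X ((2 + s₀.toNat) * P.B + t₀)) t = P.g X t) ∧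
    (∀ s, ∀ j < P.B, P.z (fl X ((2 + s₀.toNat) * P.B + t₀)) s j =
      if s = s₀ ∧ j = t₀ then !P.z X s j else P.z X s j) ∧
    (∀ s, ∀ j < P.B, P.v (fl X ((2 + s₀.toNat) * P.B + t₀)) s j = P.v X s j) := by
  refine ⟨fun t ht => ?_, fun t ht => ?_, fun s t ht => ?_, fun s t ht => ?_⟩
  · unfold f
    rw [P.a_fl ht h, if_neg (by omega)]
  · unfold g
    rw [P.a_fl ht h, if_neg (by omega)]
  · unfold z
    rw [P.a_fl ht h]
    have : (2 + s.toNat = 2 + s₀.toNat ∧ t = t₀) ↔ (s = s₀ ∧ t = t₀) := by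
      refine and_congr_left fun _ => ?_
      cases s <;> cases s₀ <;> simp
    by_cases h1 : s = s₀ ∧ t = t₀
    · rw [if_pos h1, if_pos (this.2 h1)]
    · rw [if_neg h1, if_neg (fun h2 => h1 (this.1 h2))]
  · unfold v
    rw [P.a_fl ht h, if_neg]
    have := Bool.toNat_le s₀
    omega

theorem flip_v {s₀ : Bool} {t₀ : ℕ} (h : t₀ < P.B) :
    (∀ t < P.B, P.f (fl X ((4 + s₀.toNat) * P.B + t₀)) t = P.f X t) ∧
    (∀ t < P.B, P.g (fl X ((4 + s₀.toNat) * P.B + t₀)) t = P.g X t) ∧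
    (∀ s, ∀ j < P.B, P.z (fl X ((4 + s₀.toNat) * P.B + t₀)) s j = P.z X s j) ∧
    (∀ s, ∀ j < P.B, P.v (fl X ((4 + s₀.toNat) * P.B + t₀)) s j =
      if s = s₀ ∧ j = t₀ then !P.v X s j else P.v X s j) := by
  refine ⟨fun t ht => ?_, fun t ht => ?_, fun s t ht => ?_, fun s t ht => ?_⟩
  · unfold f
    rw [P.a_fl ht h, if_neg (by omega)]
  · unfold g
    rw [P.a_fl ht h, if_neg (by omega)]
  · unfold z
    rw [P.a_fl ht h, if_neg]
    have := Bool.toNat_le s
    omega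
  · unfold v
    rw [P.a_fl ht h]
    have : (4 + s.toNat = 4 + s₀.toNat ∧ t = t₀) ↔ (s = s₀ ∧ t = t₀) := by
      refine and_congr_left fun _ => ?_
      cases s <;> cases s₀ <;> simp
    by_cases h1 : s = s₀ ∧ t = t₀
    · rw [if_pos h1, if_pos (this.2 h1)]
    · rw [if_neg h1, if_neg (fun h2 => h1 (this.1 h2))]

end Par

end Pool.Agent.MPa0a715.IN
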