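import Pool.Agent.Lib.MP_a0a715_lc_TL.Next2
import Pool.Agent.Lib.MP_a0a715_lc_IN.Sem

/-!
# The circuit: named gates
-/

namespace Pool.Agent.MPa0a715.IN

open Pool.Agent.MPa0a715 Pool.Agent.PolyTime

/-- the wire of the input `i` or of its negation -/
def lit (s i : ℕ) : Name := (if s = 1 then 0 else 1, i)

/-- gates of the chain of selectors: gate `4 * r + 2` is the selector `r`, gate `4 * r + 3` its
negation -/
def chf (T B t : ℕ) : Option Bool × List Name :=
  if t % 4 = 0 then (some true, if t / 4 = 0 then [(6, T)] else [(8, t - 2), (1, B + (T - t / 4))])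
  else if t % 4 = 1 then
    (some true, if t / 4 = 0 then [(6, T)] else [(8, t - 2), (0, B + (T - t / 4))])
  else if t % 4 = 2 then (some false, [(8, t - 2), (8, t - 1)])
  else (none, [(8, t - 1)])

/-- gates of a copy of a circuit -/
def cgf (b base n : ℕ) (G : List Gate) (t : ℕ) : Option Bool × List Name :=
  if t < n then (some true, [(0, base + t)])
  else
    match G[t - n]? with
    | none => (some true, [(0, 0)])
    | some (.and i j) => (some true, [(b, i), (b, j)])
    | some (.or i j) => (some false, [(b, i), (b, j)])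
    | some (.not i) => (none, [(b, i)])

/-- the input variable of step `t / 2` for the winner `t % 2` -/
def wi (m B t : ℕ) : ℕ :=
  if t / 2 < 2 * m then (2 + t / 2 % 2) * B + t / 2 / 2 else (4 + (1 - t % 2)) * B + (t / 2 - 2 * m)

/-- the copy in which the right value is computed -/
def wc (m t : ℕ) : ℕ := if t / 2 < 2 * m then 1 - t % 2 else t % 2

/-- the wire of the right value -/
def wo (n m : ℕ) (O : List ℕ) (t : ℕ) : ℕ :=
  O.getD (if t / 2 < 2 * m then n + t / 2 / 2 else t / 2 - 2 * m) 0

/-- outputs -/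
def outf (L T p : ℕ) : List Name :=
  if p = 0 then [(20, 0)] else
  if p % 2 = 1 then
    if p / 2 < L then [(5, p / 2)]
    else if p / 2 < T then [(23, p / 2 - L), (24, p / 2 - L)]
    else [(6, T)]
  else if p / 2 - 1 < T then [(21, p / 2 - 1), (22, p / 2 - 1)]
  else [(19, 0)]

/-- the blocks -/
def iblocks (n m L T B : ℕ) (G : List Gate) (O : List ℕ) : List Blk :=
  [ (6 * B, fun i => (none, [(0, i)])),
    one (some true) [(0, 0), (1, 0)],
    (B, fun t => (some true, [(0, t), (1, B + t)])),
    (B, fun t => (some true, [(1, t), (0, B + t)])),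
    (B, fun t => (some false, [(3, t), (4, t)])),
    (B, fun t => (some true, [if t < L then (0, B + t) else (5, t)])),
    (B, fun t => (none, [(6, t)])),
    (4 * (m + 1), chf T B),
    (n + G.length, cgf 9 (4 * B) n G),
    (n + G.length, cgf 10 (5 * B) n G),
    (n + G.length, fun t => (none, [(9, t)])),
    (n + G.length, fun t => (none, [(10, t)])),
    (2 * L, fun t => (some true, [(0, wi m B t), (11 + wc m t, wo n m O t)])),
    (2 * L, fun t => (some true, [(1, wi m B t), (9 + wc m t, wo n m O t)])),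
    (2 * L, fun t => (some false, [(13, t), (14, t)])),
    (8 * m, fun t => (some true, [(7, T), (8, 4 * (m - t / 8) + (3 - t / 4 % 2)),
      (8, 4 * m + (3 - t / 2 % 2)), lit (t % 2) ((2 + t / 4 % 2) * B + t / 8),
      (9 + 2 * (t % 2) + t / 2 % 2, O.getD (n + t / 8) 0)])),
    (2 * L, fun t => (some true, (8, 4 * m + (3 - t % 2)) :: (15, t) ::
      (8, if t / 2 < 2 * m then 4 * (m - t / 2 / 2) + (2 + t / 2 % 2) else 4 * m + (3 - t % 2)) ::
      ((List.range L).filter (fun i => decide (t / 2 ≤ i))).map (fun i => lit (t % 2) (B + i)))),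
    (2 * L, fun t => (some true, (15, t) ::
      (if t / 2 = 0 then (15, t) else lit (1 - t % 2) (t / 2 - 1)) ::
      ((List.range L).filter (fun i => decide (t / 2 ≤ i))).map (fun i => lit (t % 2) i))),
    one (some false) ((2, 0) :: (ws 16 (List.range (8 * m)) ++ ws 17 (List.range (2 * L)))),
    one (some false) ((2, 0) :: ws 18 (List.range (2 * L))),
    (T, fun t => (some true, [(0, t), (7, t + 1)])),
    (T, fun t => (some true, [(1, t), (6, t + 1)])),
    (m, fun j => (some true, [(6, L + j), (0, 3 * B + j)])),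
    (m, fun j => (some true, [(7, L + j), (0, 2 * B + j)])),
    (2 * T + 3, fun p => (some false, outf L T p)) ]

section
variable {n m L T B : ℕ} {G : List Gate} {O : List ℕ}

theorem k0 : cnt (6 * B) (iblocks n m L T B G O) 0 = 6 * B := rfl
theorem k1 : cnt (6 * B) (iblocks n m L T B G O) 1 = 6 * B := rfl
theorem k2 : cnt (6 * B) (iblocks n m L T B G O) 2 = 1 := rfl
theorem k3 : cnt (6 * B) (iblocks n m L T B G O) 3 = B := rfl
theorem k4 : cnt (6 * B) (iblocks n m L T B G O) 4 = B := rfl
theorem k5 : cnt (6 * B) (iblocks n m L T B G O) 5 = B := rfl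
theorem k6 : cnt (6 * B) (iblocks n m L T B G O) 6 = B := rfl
theorem k7 : cnt (6 * B) (iblocks n m L T B G O) 7 = B := rfl
theorem k8 : cnt (6 * B) (iblocks n m L T B G O) 8 = 4 * (m + 1) := rfl
theorem k9 : cnt (6 * B) (iblocks n m L T B G O) 9 = n + G.length := rfl
theorem k10 : cnt (6 * B) (iblocks n m L T B G O) 10 = n + G.length := rfl
theorem k11 : cnt (6 * B) (iblocks n m L T B G O) 11 = n + G.length := rfl
theorem k12 : cnt (6 * B) (iblocks n m L T B G O) 12 = n + G.length := rfl
theorem k13 : cnt (6 * B) (iblocks n m L T B G O) 13 = 2 * L := rfl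
theorem k14 : cnt (6 * B) (iblocks n m L T B G O) 14 = 2 * L := rfl
theorem k15 : cnt (6 * B) (iblocks n m L T B G O) 15 = 2 * L := rfl
theorem k16 : cnt (6 * B) (iblocks n m L T B G O) 16 = 8 * m := rfl
theorem k17 : cnt (6 * B) (iblocks n m L T B G O) 17 = 2 * L := rfl
theorem k18 : cnt (6 * B) (iblocks n m L T B G O) 18 = 2 * L := rfl
theorem k19 : cnt (6 * B) (iblocks n m L T B G O) 19 = 1 := rfl
theorem k20 : cnt (6 * B) (iblocks n m L T B G O) 20 = 1 := rfl
theorem k21 : cnt (6 * B) (iblocks n m L T B G O) 21 = T := rfl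
theorem k22 : cnt (6 * B) (iblocks n m L T B G O) 22 = T := rfl
theorem k23 : cnt (6 * B) (iblocks n m L T B G O) 23 = m := rfl
theorem k24 : cnt (6 * B) (iblocks n m L T B G O) 24 = m := rfl
theorem k25 : cnt (6 * B) (iblocks n m L T B G O) 25 = 2 * T + 3 := rfl

/-- the literal is fine in all later blocks -/
theorem lit_ok {s i b t : ℕ} (hi : i < 6 * B) (hb : 2 ≤ b) :
    (lit s i).2 < cnt (6 * B) (iblocks n m L T B G O) (lit s i).1 ∧ nlt (lit s i) (b, t) := by
  unfold lit
  by_cases h : s = 1
  · rw [if_pos h]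
    exact ⟨hi, Or.inl (by change 0 < b; omega)⟩
  · rw [if_neg h]
    exact ⟨hi, Or.inl (by change 1 < b; omega)⟩

theorem kcopy {c : ℕ} (hc : c < 4) :
    cnt (6 * B) (iblocks n m L T B G O) (9 + c) = n + G.length := by
  match c, hc with
  | 0, _ => rfl
  | 1, _ => rfl
  | 2, _ => rfl
  | 3, _ => rfl

theorem mul_bound {c d i : ℕ} (hc : c + 1 ≤ d) (hi : i < B) : c * B + i < d * B := by
  have := Nat.mul_le_mul_right B hc
  rw [Nat.add_mul, Nat.one_mul] at this
  omega

end

end Pool.Agent.MPa0a715.IN
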