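import Pool.Agent.Lib.MP_a0a715_lc_IN.Circ

/-!
# The circuit is well formed
-/

namespace Pool.Agent.MPa0a715.IN

open Pool.Agent.MPa0a715 Pool.Agent.PolyTime

section
variable {n m L T B : ℕ} {G : List Gate} {O : List ℕ}

theorem cgf_ok {b base i₀ : ℕ} (hb : cnt (6 * B) (iblocks n m L T B G O) b = n + G.length)
    (hb0 : 1 ≤ b) (hbase : ∀ t < n, base + t < 6 * B)
    (hG : ∀ (k : ℕ) (h : k < G.length), ∀ r ∈ G[k].refs, r < n + k) (hi₀ : i₀ < n + G.length) :
    (cgf b base n G i₀).2 ≠ [] ∧ ∀ r ∈ (cgf b base n G i₀).2,
      r.2 < cnt (6 * B) (iblocks n m L T B G O) r.1 ∧ nlt r (b, i₀) := by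
  unfold cgf
  by_cases h1 : i₀ < n
  · rw [if_pos h1]
    refine ⟨List.cons_ne_nil _ _, ?_⟩
    intro r hr
    rw [List.mem_singleton] at hr
    subst hr
    exact ⟨hbase _ h1, Or.inl (by change 0 < b; omega)⟩
  · rw [if_neg h1]
    have hk : i₀ - n < G.length := by omega
    have hr := hG _ hk
    rw [List.getElem?_eq_getElem hk]
    generalize G[i₀ - n] = g at hr
    have key : ∀ i, i < n + (i₀ - n) → ((b, i) : Name).2 <
        cnt (6 * B) (iblocks n m L T B G O) ((b, i) : Name).1 ∧
        nlt ((b, i) : Name) (b, i₀) := by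
      intro i hi
      refine ⟨?_, Or.inr ⟨rfl, ?_⟩⟩
      · rw [hb]
        change i < _
        omega
      · change i < i₀
        omega
    cases g with
    | and i j =>
      have h5 := key i (hr i (by simp [Gate.refs]))
      have h6 := key j (hr j (by simp [Gate.refs]))
      refine ⟨List.cons_ne_nil _ _, ?_⟩
      simp only [List.forall_mem_cons, List.not_mem_nil, false_imp_iff, implies_true, and_true]
      exact ⟨h5, h6⟩
    | or i j =>
      have h5 := key i (hr i (by simp [Gate.refs]))
      have h6 := key j (hr j (by simp [Gate.refs]))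
      refine ⟨List.cons_ne_nil _ _, ?_⟩
      simp only [List.forall_mem_cons, List.not_mem_nil, false_imp_iff, implies_true, and_true]
      exact ⟨h5, h6⟩
    | not i =>
      have h5 := key i (hr i (by simp [Gate.refs]))
      refine ⟨List.cons_ne_nil _ _, ?_⟩
      simp only [List.forall_mem_cons, List.not_mem_nil, false_imp_iff, implies_true, and_true]
      exact h5

theorem wi_lt (hL : L = n + 2 * m) (hT : T = L + m) (hB : B = T + 1) {t : ℕ} (ht : t < 2 * L) :
    wi m B t < 6 * B := by
  unfold wi
  by_cases h : t / 2 < 2 * m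
  · rw [if_pos h]
    exact mul_bound (by omega) (by omega)
  · rw [if_neg h]
    exact mul_bound (by omega) (by omega)

theorem wo_lt (hL : L = n + 2 * m) (hO : ∀ o ∈ O, o < n + G.length) (hOl : O.length = n + m)
    {t : ℕ} (ht : t < 2 * L) : wo n m O t < n + G.length := by
  unfold wo
  have h1 : (if t / 2 < 2 * m then n + t / 2 / 2 else t / 2 - 2 * m) < O.length := by
    rw [hOl]
    split_ifs <;> omega
  rw [List.getD_eq_getElem _ _ h1]
  exact hO _ (List.getElem_mem h1)

theorem wc_lt {t : ℕ} : wc m t < 2 := by
  unfold wc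
  split_ifs <;> omega

theorem iblocks_ok (hL : L = n + 2 * m) (hT : T = L + m) (hB : B = T + 1)
    (hG : ∀ (k : ℕ) (h : k < G.length), ∀ r ∈ G[k].refs, r < n + k)
    (hO : ∀ o ∈ O, o < n + G.length) (hOl : O.length = n + m) :
    AllB (BlkOK (6 * B) (iblocks n m L T B G O)) 1 (iblocks n m L T B G O) := by
  have hOd : ∀ j < m, O.getD (n + j) 0 < n + G.length := by
    intro j hj
    rw [List.getD_eq_getElem _ _ (by omega)]
    exact hO _ (List.getElem_mem _)
  refine ⟨?_, ?_, ?_, ?_, ?_, ?_, ?_, ?_, ?_, ?_, ?_, ?_, ?_, ?_, ?_, ?_, ?_, ?_, ?_, ?_, ?_, ?_,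
    ?_, ?_, ?_, trivial⟩
  all_goals
    intro i hi
    have hi' := hi
    simp only [one] at hi'
  · -- 1
    refine ⟨List.cons_ne_nil _ _, ?_⟩
    simp only [List.forall_mem_cons, List.not_mem_nil, false_imp_iff, implies_true,
      and_true, k0, nlt]
    omega
  · -- 2
    refine ⟨List.cons_ne_nil _ _, ?_⟩
    simp only [one, List.forall_mem_cons, List.not_mem_nil, false_imp_iff, implies_true,
      and_true, k0, k1, nlt]
    omega
  · -- 3
    refine ⟨List.cons_ne_nil _ _, ?_⟩
    simp only [List.forall_mem_cons, List.not_mem_nil, false_imp_iff, implies_true,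
      and_true, k0, k1, nlt]
    omega
  · -- 4
    refine ⟨List.cons_ne_nil _ _, ?_⟩
    simp only [List.forall_mem_cons, List.not_mem_nil, false_imp_iff, implies_true,
      and_true, k0, k1, nlt]
    omega
  · -- 5
    refine ⟨List.cons_ne_nil _ _, ?_⟩
    simp only [List.forall_mem_cons, List.not_mem_nil, false_imp_iff, implies_true,
      and_true, k3, k4, nlt]
    omega
  · -- 6
    refine ⟨List.cons_ne_nil _ _, ?_⟩
    simp only [List.forall_mem_cons, List.not_mem_nil, false_imp_iff, implies_true,
      and_true]
    by_cases h : i < L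
    · rw [if_pos h]
      simp only [k0, nlt]
      omega
    · rw [if_neg h]
      simp only [k5, nlt]
      omega
  · -- 7
    refine ⟨List.cons_ne_nil _ _, ?_⟩
    simp only [List.forall_mem_cons, List.not_mem_nil, false_imp_iff, implies_true,
      and_true, k6, nlt]
    omega
  · -- 8
    change (chf T B i).2 ≠ [] ∧ ∀ r ∈ (chf T B i).2, _
    unfold chf
    by_cases h1 : i % 4 = 0
    · rw [if_pos h1]
      dsimp only
      by_cases h2 : i / 4 = 0
      · rw [if_pos h2]
        refine ⟨List.cons_ne_nil _ _, ?_⟩
        simp only [List.forall_mem_cons, List.not_mem_nil, false_imp_iff, implies_true,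
          and_true, k6, nlt]
        omega
      · rw [if_neg h2]
        refine ⟨List.cons_ne_nil _ _, ?_⟩
        simp only [List.forall_mem_cons, List.not_mem_nil, false_imp_iff, implies_true,
          and_true, true_and, k1, k8, nlt]
        omega
    · rw [if_neg h1]
      by_cases h3 : i % 4 = 1
      · rw [if_pos h3]
        dsimp only
        by_cases h2 : i / 4 = 0
        · rw [if_pos h2]
          refine ⟨List.cons_ne_nil _ _, ?_⟩
          simp only [List.forall_mem_cons, List.not_mem_nil, false_imp_iff, implies_true,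
            and_true, k6, nlt]
          omega
        · rw [if_neg h2]
          refine ⟨List.cons_ne_nil _ _, ?_⟩
          simp only [List.forall_mem_cons, List.not_mem_nil, false_imp_iff, implies_true,
            and_true, true_and, k0, k8, nlt]
          omega
      · rw [if_neg h3]
        by_cases h4 : i % 4 = 2
        · rw [if_pos h4]
          refine ⟨List.cons_ne_nil _ _, ?_⟩
          simp only [List.forall_mem_cons, List.not_mem_nil, false_imp_iff, implies_true,
            and_true, true_and, k8, nlt]
          omega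
        · rw [if_neg h4]
          refine ⟨List.cons_ne_nil _ _, ?_⟩
          simp only [List.forall_mem_cons, List.not_mem_nil, false_imp_iff, implies_true,
            and_true, true_and, k8, nlt]
          omega
  · -- 9
    exact cgf_ok k9 (by omega) (fun t ht => by omega) hG hi'
  · -- 10
    exact cgf_ok k10 (by omega) (fun t ht => by omega) hG hi'
  · -- 11
    refine ⟨List.cons_ne_nil _ _, ?_⟩
    simp only [List.forall_mem_cons, List.not_mem_nil, false_imp_iff, implies_true,
      and_true, k9, nlt]
    omega
  · -- 12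
    refine ⟨List.cons_ne_nil _ _, ?_⟩
    simp only [List.forall_mem_cons, List.not_mem_nil, false_imp_iff, implies_true,
      and_true, k10, nlt]
    omega
  · -- 13
    refine ⟨List.cons_ne_nil _ _, ?_⟩
    have h1 := wi_lt hL hT hB hi'
    have h2 := wo_lt hL hO hOl hi'
    have h3 := wc_lt (m := m) (t := i)
    simp only [List.forall_mem_cons, List.not_mem_nil, false_imp_iff, implies_true,
      and_true, k0, nlt]
    rw [show 11 + wc m i = 9 + (2 + wc m i) by omega, kcopy (by omega)]
    omega
  · -- 14
    refine ⟨List.cons_ne_nil _ _, ?_⟩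
    have h1 := wi_lt hL hT hB hi'
    have h2 := wo_lt hL hO hOl hi'
    have h3 := wc_lt (m := m) (t := i)
    simp only [List.forall_mem_cons, List.not_mem_nil, false_imp_iff, implies_true,
      and_true, k1, nlt]
    rw [kcopy (by omega)]
    omega
  · -- 15
    refine ⟨List.cons_ne_nil _ _, ?_⟩
    simp only [List.forall_mem_cons, List.not_mem_nil, false_imp_iff, implies_true,
      and_true, k13, k14, nlt]
    omega
  · -- 16
    refine ⟨List.cons_ne_nil _ _, ?_⟩
    have h1 := hOd (i / 8) (by omega)
    have h2 : (2 + i / 4 % 2) * B + i / 8 < 6 * B := mul_bound (by omega) (by omega)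
    have h3 := lit_ok (n := n) (m := m) (L := L) (T := T) (G := G) (O := O) (s := i % 2)
      (b := 16) (t := i) h2 (by omega)
    simp only [List.forall_mem_cons, List.not_mem_nil, false_imp_iff, implies_true,
      and_true, k7, k8]
    refine ⟨⟨by omega, Or.inl (by simp)⟩, ⟨by omega, Or.inl (by simp)⟩,
      ⟨by omega, Or.inl (by simp)⟩, h3, ?_⟩
    have h4 : 9 + 2 * (i % 2) + i / 2 % 2 = 9 + (2 * (i % 2) + i / 2 % 2) := by omega
    rw [h4, kcopy (by omega)]
    exact ⟨h1, Or.inl (by change _ < 1 + 1 + 1 + 1 + 1 + 1 + 1 + 1 + 1 + 1 + 1 + 1 + 1 + 1 + 1 + 1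
                          omega)⟩
  · -- 17
    refine ⟨List.cons_ne_nil _ _, ?_⟩
    simp only [List.forall_mem_cons]
    refine ⟨⟨by rw [k8]; omega, Or.inl (by simp)⟩, ⟨by rw [k15]; omega, Or.inl (by simp)⟩,
      ⟨?_, Or.inl (by simp)⟩, ?_⟩
    · rw [k8]
      split_ifs <;> omega
    · intro r hr
      obtain ⟨q, hq, rfl⟩ := List.mem_map.1 hr
      rw [List.mem_filter, List.mem_range] at hq
      exact lit_ok (by omega) (by omega)
  · -- 18
    refine ⟨List.cons_ne_nil _ _, ?_⟩
    simp only [List.forall_mem_cons]
    refine ⟨⟨by rw [k15]; omega, Or.inl (by simp)⟩, ?_, ?_⟩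
    · by_cases h : i / 2 = 0
      · rw [if_pos h]
        exact ⟨by rw [k15]; omega, Or.inl (by simp)⟩
      · rw [if_neg h]
        exact lit_ok (by omega) (by omega)
    · intro r hr
      obtain ⟨q, hq, rfl⟩ := List.mem_map.1 hr
      rw [List.mem_filter, List.mem_range] at hq
      exact lit_ok (by omega) (by omega)
  · -- 19
    refine ⟨List.cons_ne_nil _ _, ?_⟩
    intro r hr
    simp only [one] at hr
    rcases List.mem_cons.1 hr with rfl | hr
    · exact ⟨by rw [k2]; exact Nat.one_pos, Or.inl (by simp)⟩
    rcases List.mem_append.1 hr with hr | hr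
    · obtain ⟨h1, h2⟩ := mem_ws.1 hr
      rw [List.mem_range] at h2
      rw [h1, k16]
      exact ⟨h2, Or.inl (by rw [h1]; simp)⟩
    · obtain ⟨h1, h2⟩ := mem_ws.1 hr
      rw [List.mem_range] at h2
      rw [h1, k17]
      exact ⟨h2, Or.inl (by rw [h1]; simp)⟩
  · -- 20
    refine ⟨List.cons_ne_nil _ _, ?_⟩
    intro r hr
    simp only [one] at hr
    rcases List.mem_cons.1 hr with rfl | hr
    · exact ⟨by rw [k2]; exact Nat.one_pos, Or.inl (by simp)⟩
    · obtain ⟨h1, h2⟩ := mem_ws.1 hr
      rw [List.mem_range] at h2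
      rw [h1, k18]
      exact ⟨h2, Or.inl (by rw [h1]; simp)⟩
  · -- 21
    refine ⟨List.cons_ne_nil _ _, ?_⟩
    simp only [List.forall_mem_cons, List.not_mem_nil, false_imp_iff, implies_true,
      and_true, k0, k7, nlt]
    omega
  · -- 22
    refine ⟨List.cons_ne_nil _ _, ?_⟩
    simp only [List.forall_mem_cons, List.not_mem_nil, false_imp_iff, implies_true,
      and_true, k1, k6, nlt]
    omega
  · -- 23
    refine ⟨List.cons_ne_nil _ _, ?_⟩
    simp only [List.forall_mem_cons, List.not_mem_nil, false_imp_iff, implies_true,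
      and_true, k0, k6, nlt]
    omega
  · -- 24
    refine ⟨List.cons_ne_nil _ _, ?_⟩
    simp only [List.forall_mem_cons, List.not_mem_nil, false_imp_iff, implies_true,
      and_true, k0, k7, nlt]
    omega
  · -- 25
    change outf L T i ≠ [] ∧ ∀ r ∈ outf L T i, _
    unfold outf
    by_cases h1 : i = 0
    · rw [if_pos h1]
      refine ⟨List.cons_ne_nil _ _, ?_⟩
      simp only [List.forall_mem_cons, List.not_mem_nil, false_imp_iff, implies_true,
        and_true, k20, nlt]
      omega
    rw [if_neg h1]
    by_cases h2 : i % 2 = 1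
    · rw [if_pos h2]
      by_cases h3 : i / 2 < L
      · rw [if_pos h3]
        refine ⟨List.cons_ne_nil _ _, ?_⟩
        simp only [List.forall_mem_cons, List.not_mem_nil, false_imp_iff, implies_true,
          and_true, k5, nlt]
        omega
      rw [if_neg h3]
      by_cases h4 : i / 2 < T
      · rw [if_pos h4]
        refine ⟨List.cons_ne_nil _ _, ?_⟩
        simp only [List.forall_mem_cons, List.not_mem_nil, false_imp_iff, implies_true,
          and_true, k23, k24, nlt]
        omega
      · rw [if_neg h4]
        refine ⟨List.cons_ne_nil _ _, ?_⟩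
        simp only [List.forall_mem_cons, List.not_mem_nil, false_imp_iff, implies_true,
          and_true, k6, nlt]
        omega
    · rw [if_neg h2]
      by_cases h3 : i / 2 - 1 < T
      · rw [if_pos h3]
        refine ⟨List.cons_ne_nil _ _, ?_⟩
        simp only [List.forall_mem_cons, List.not_mem_nil, false_imp_iff, implies_true,
          and_true, k21, k22, nlt]
        omega
      · rw [if_neg h3]
        refine ⟨List.cons_ne_nil _ _, ?_⟩
        simp only [List.forall_mem_cons, List.not_mem_nil, false_imp_iff, implies_true,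
          and_true, k19, nlt]
        omega

end

end Pool.Agent.MPa0a715.IN
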