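import Pool.Agent.Lib.MP_a0a715_lc_IN.CircOK

/-!
# The values computed by the circuit
-/

namespace Pool.Agent.MPa0a715.IN

open Pool.Agent.MPa0a715 Pool.Agent.PolyTime

/-- a copy of a circuit computes what the circuit computes -/
theorem copy_env {b base n : ℕ} {G : List Gate} {E : Name → Bool} {x : List Bool}
    (hx : x.length = n) (hG : ∀ (k : ℕ) (h : k < G.length), ∀ r ∈ G[k].refs, r < n + k)
    (hsat : ∀ t < n + G.length, GSat E ((b, t), cgf b base n G t))
    (h0 : ∀ t < n, E (0, base + t) = x.getD t false) :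
    ∀ t < n + G.length, E (b, t) = (run G x).getD t false := by
  intro t
  induction t using Nat.strong_induction_on with
  | _ t ih =>
  intro ht
  have hs := hsat t ht
  unfold cgf at hs
  by_cases h1 : t < n
  · rw [if_pos h1] at hs
    have h2 := sat_and hs
    rw [List.forall_mem_cons, forall_nil, and_true, h0 t h1] at h2
    rw [run_getD_lt _ _ (by omega)]
    exact Bool.eq_iff_iff.2 h2
  · rw [if_neg h1] at hs
    have hk : t - n < G.length := by omega
    rw [List.getElem?_eq_getElem hk] at hs
    have hr := hG _ hk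
    have hrun := run_gate hx hG (t - n) hk
    rw [show n + (t - n) = t by omega] at hrun
    rw [hrun]
    generalize G[t - n] = g at hs hr
    cases g with
    | and i j =>
      have h5 := ih i (by have := hr i (by simp [Gate.refs]); omega)
        (by have := hr i (by simp [Gate.refs]); omega)
      have h6 := ih j (by have := hr j (by simp [Gate.refs]); omega)
        (by have := hr j (by simp [Gate.refs]); omega)
      have h2 := sat_and hs
      rw [List.forall_mem_cons, List.forall_mem_cons, forall_nil, and_true, h5, h6] at h2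
      unfold Gate.evalW
      rw [Bool.eq_iff_iff, h2, Bool.and_eq_true]
    | or i j =>
      have h5 := ih i (by have := hr i (by simp [Gate.refs]); omega)
        (by have := hr i (by simp [Gate.refs]); omega)
      have h6 := ih j (by have := hr j (by simp [Gate.refs]); omega)
        (by have := hr j (by simp [Gate.refs]); omega)
      have h2 := sat_or hs
      rw [exists_cons, exists_cons, exists_nil, or_false, h5, h6] at h2
      unfold Gate.evalW
      rw [Bool.eq_iff_iff, h2, Bool.or_eq_true]
    | not i =>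
      have h5 := ih i (by have := hr i (by simp [Gate.refs]); omega)
        (by have := hr i (by simp [Gate.refs]); omega)
      have h2 := sat_not hs
      unfold Gate.evalW
      rw [h2, h5]

section
variable {P : Par} {G : List Gate} {O : List ℕ} {E : Name → Bool} {X : ℕ → Bool}
  (hE : ∀ g ∈ toG 1 (iblocks P.n P.m P.L P.T P.B G O), GSat E g)
  (h0 : ∀ i < 6 * P.B, E (0, i) = X i)

include hE h0 in
theorem e1 {i : ℕ} (hi : i < 6 * P.B) : E (1, i) = !X i := by
  have h := sat_not (sat_blocks hE (i := 0) rfl i hi)
  rw [← h0 i hi]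
  exact h

include hE h0 in
theorem elit {s i : ℕ} (hi : i < 6 * P.B) : E (lit s i) = true ↔ X i = decide (s = 1) := by
  unfold lit
  by_cases h : s = 1
  · rw [if_pos h, h0 i hi, decide_eq_true h]
  · rw [if_neg h, e1 hE h0 hi, decide_eq_false h]
    cases X i <;> simp

include hE h0 in
theorem e2 : E (2, 0) = false := by
  have hB : 0 < 6 * P.B := by unfold Par.B; omega
  have h := sat_and (sat_blocks hE (i := 1) rfl 0 Nat.one_pos)
  rw [List.forall_mem_cons, List.forall_mem_cons, forall_nil, and_true, h0 0 hB,
    e1 hE h0 hB] at h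
  rw [show (2, 0) = (1 + 1, 0) from rfl, ← Bool.not_eq_true, h]
  cases X 0 <;> simp

theorem f_def (t : ℕ) : P.f X t = X t := by
  unfold Par.f Par.a
  rw [Nat.zero_mul, Nat.zero_add]

theorem g_def (t : ℕ) : P.g X t = X (P.B + t) := by
  unfold Par.g Par.a
  rw [Nat.one_mul]

include hE h0 in
theorem e5 {t : ℕ} (ht : t < P.B) : E (5, t) = (P.f X t != P.g X t) := by
  have h3 := sat_and (sat_blocks hE (i := 2) rfl t ht)
  have h4 := sat_and (sat_blocks hE (i := 3) rfl t ht)
  have h5 := sat_or (sat_blocks hE (i := 4) rfl t ht)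
  rw [List.forall_mem_cons, List.forall_mem_cons, forall_nil, and_true, h0 _ (by omega),
    e1 hE h0 (by omega)] at h3
  rw [List.forall_mem_cons, List.forall_mem_cons, forall_nil, and_true, h0 _ (by omega),
    e1 hE h0 (by omega)] at h4
  rw [exists_cons, exists_cons, exists_nil, or_false, show (3, t) = (1 + 2, t) from rfl,
    show (4, t) = (1 + 3, t) from rfl, h3, h4] at h5
  rw [Bool.eq_iff_iff, show (5, t) = (1 + 4, t) from rfl, h5, f_def, g_def]
  cases X t <;> cases X (P.B + t) <;> simp

include hE h0 in
theorem e6 {t : ℕ} (ht : t < P.B) : E (6, t) = P.c X t := by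
  have h6 := sat_and (sat_blocks hE (i := 5) rfl t ht)
  rw [List.forall_mem_cons, forall_nil, and_true] at h6
  rw [Bool.eq_iff_iff, show (6, t) = (1 + 5, t) from rfl, h6]
  unfold Par.c
  by_cases h : t < P.L
  · rw [if_pos h, if_pos h, h0 _ (by omega), g_def]
  · rw [if_neg h, if_neg h, e5 hE h0 ht]

include hE h0 in
theorem e7 {t : ℕ} (ht : t < P.B) : E (7, t) = !P.c X t := by
  have h := sat_not (sat_blocks hE (i := 6) rfl t ht)
  rw [← e6 hE h0 ht]
  exact h

include hE h0 in
theorem e8 {r : ℕ} (hr : r ≤ P.m) :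
    E (8, 4 * r + 2) = P.Ar X r ∧ E (8, 4 * r + 3) = !P.Ar X r := by
  have hLT := Par.LT (P := P)
  have hBT := Par.BT (P := P)
  have key : ∀ r ≤ P.m, E (8, 4 * r + 2) = P.Ar X r → E (8, 4 * r + 3) = !P.Ar X r := by
    intro r hr h
    have h1 := sat_blocks hE (i := 7) rfl (4 * r + 3) (by
      change 4 * r + 3 < 4 * (P.m + 1)
      omega)
    dsimp only at h1
    unfold chf at h1
    rw [if_neg (by omega), if_neg (by omega), if_neg (by omega)] at h1
    have h2 := sat_not h1
    rw [show 4 * r + 3 - 1 = 4 * r + 2 by omega, h] at h2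
    exact h2
  induction r with
  | zero =>
    have hx : E (8, 4 * 0 + 2) = P.Ar X 0 := by
      have h1 := sat_blocks hE (i := 7) rfl 0 (by
        change 0 < 4 * (P.m + 1)
        omega)
      have h2 := sat_blocks hE (i := 7) rfl 1 (by
        change 1 < 4 * (P.m + 1)
        omega)
      have h3 := sat_blocks hE (i := 7) rfl 2 (by
        change 2 < 4 * (P.m + 1)
        omega)
      dsimp only at h1 h2 h3
      unfold chf at h1 h2 h3
      simp only [Nat.zero_mod, if_true, Nat.zero_div, Nat.reduceMod, Nat.reduceDiv,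
        if_false, Nat.succ_ne_zero, OfNat.ofNat_ne_zero, Nat.sub_self,
        Nat.reduceSub, OfNat.ofNat_ne_one] at h1 h2 h3
      have h1' := sat_and h1
      have h2' := sat_and h2
      have h3' := sat_or h3
      rw [List.forall_mem_cons, forall_nil, and_true, e6 hE h0 (by omega)] at h1' h2'
      rw [exists_cons, exists_cons, exists_nil, or_false,
        show (8, 0) = (1 + 7, 0) from rfl, show (8, 1) = (1 + 7, 1) from rfl, h1', h2',
        or_self] at h3'
      rw [Bool.eq_iff_iff]
      exact h3'
    exact ⟨hx, key 0 hr hx⟩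
  | succ r ih =>
    obtain ⟨i1, i2⟩ := ih (by omega)
    have hx : E (8, 4 * (r + 1) + 2) = P.Ar X (r + 1) := by
      have h1 := sat_blocks hE (i := 7) rfl (4 * (r + 1)) (by
        change 4 * (r + 1) < 4 * (P.m + 1)
        omega)
      have h2 := sat_blocks hE (i := 7) rfl (4 * (r + 1) + 1) (by
        change 4 * (r + 1) + 1 < 4 * (P.m + 1)
        omega)
      have h3 := sat_blocks hE (i := 7) rfl (4 * (r + 1) + 2) (by
        change 4 * (r + 1) + 2 < 4 * (P.m + 1)
        omega)
      dsimp only at h1 h2 h3
      unfold chf at h1 h2 h3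
      rw [if_pos (by omega), if_neg (by omega)] at h1
      rw [if_neg (by omega), if_pos (by omega), if_neg (by omega)] at h2
      rw [if_neg (by omega), if_neg (by omega), if_pos (by omega)] at h3
      have h1' := sat_and h1
      have h2' := sat_and h2
      have h3' := sat_or h3
      rw [List.forall_mem_cons, List.forall_mem_cons, forall_nil, and_true,
        show 4 * (r + 1) - 2 = 4 * r + 2 by omega, i1,
        show 4 * (r + 1) / 4 = r + 1 by omega, e1 hE h0 (by omega)] at h1'
      rw [List.forall_mem_cons, List.forall_mem_cons, forall_nil, and_true,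
        show 4 * (r + 1) + 1 - 2 = 4 * r + 3 by omega, i2,
        show (4 * (r + 1) + 1) / 4 = r + 1 by omega, h0 _ (by omega)] at h2'
      rw [exists_cons, exists_cons, exists_nil, or_false,
        show 4 * (r + 1) + 2 - 2 = 4 * (r + 1) by omega,
        show 4 * (r + 1) + 2 - 1 = 4 * (r + 1) + 1 by omega,
        show (8, 4 * (r + 1)) = (1 + 7, 4 * (r + 1)) from rfl,
        show (8, 4 * (r + 1) + 1) = (1 + 7, 4 * (r + 1) + 1) from rfl, h1', h2'] at h3'
      rw [Bool.eq_iff_iff, show (8, 4 * (r + 1) + 2) = (1 + 7, 4 * (r + 1) + 2) from rfl, h3']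
      rw [show P.Ar X (r + 1) = (P.Ar X r != P.g X (P.T - (r + 1))) from rfl, g_def]
      cases P.Ar X r <;> cases X (P.B + (P.T - (r + 1))) <;> simp
    exact ⟨hx, key _ hr hx⟩

include hE h0 in
/-- the selector literals -/
theorem esel {r s : ℕ} (hr : r ≤ P.m) (hs : s < 2) :
    E (8, 4 * r + (3 - s)) = true ↔ P.Ar X r = decide (s = 1) := by
  obtain ⟨h1, h2⟩ := e8 hE h0 hr
  match s, hs with
  | 0, _ =>
    change E (8, 4 * r + 3) = true ↔ _
    rw [h2]
    cases P.Ar X r <;> simp
  | 1, _ =>
    change E (8, 4 * r + 2) = true ↔ _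
    rw [h1]
    cases P.Ar X r <;> simp

end

end Pool.Agent.MPa0a715.IN
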