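import Pool.Agent.Lib.MP_a0a715_lc_IN.Env

/-!
# The values computed by the circuit, continued
-/

namespace Pool.Agent.MPa0a715.IN

open Pool.Agent.MPa0a715 Pool.Agent.PolyTime

/-- the outputs of the copies of the circuit -/
def cv (P : Par) (X : ℕ → Bool) (s : Bool) (q : ℕ) : Bool :=
  if q < P.n then P.nx (P.v X s) q else P.cs (P.v X s) (q - P.n)

theorem toNat_decide_mod (k : ℕ) : (decide (k % 2 = 1)).toNat = k % 2 := by
  rcases Nat.mod_two_eq_zero_or_one k with h | h
  · rw [h]
    rfl
  · rw [h]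
    rfl

theorem toNat_not_decide_mod (k : ℕ) : (!decide (k % 2 = 1)).toNat = 1 - k % 2 := by
  rcases Nat.mod_two_eq_zero_or_one k with h | h
  · rw [h]
    rfl
  · rw [h]
    rfl

theorem toNat_sub (s : Bool) : decide (s.toNat = 1) = s := by
  cases s <;> rfl

section
variable {P : Par} {G : List Gate} {O : List ℕ} {E : Name → Bool} {X : ℕ → Bool}
  (hE : ∀ g ∈ toG 1 (iblocks P.n P.m P.L P.T P.B G O), GSat E g)
  (h0 : ∀ i < 6 * P.B, E (0, i) = X i)
  (hO : ∀ o ∈ O, o < P.n + G.length) (hOl : O.length = P.n + P.m)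
  (hcp : ∀ s : Bool, ∀ q < P.n + P.m, E (9 + s.toNat, O.getD q 0) = cv P X s q)

include hO hOl in
theorem getD_lt {q : ℕ} (hq : q < P.n + P.m) : O.getD q 0 < P.n + G.length := by
  rw [List.getD_eq_getElem _ _ (by omega)]
  exact hO _ (List.getElem_mem _)

include hE hO hOl hcp in
theorem e11 (s : Bool) {q : ℕ} (hq : q < P.n + P.m) :
    E (11 + s.toNat, O.getD q 0) = !cv P X s q := by
  have h1 := getD_lt (G := G) hO hOl hq
  rw [← hcp s q hq]
  cases s with
  | false => exact sat_not (sat_blocks hE (i := 10) rfl _ h1)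
  | true => exact sat_not (sat_blocks hE (i := 11) rfl _ h1)

include hE h0 hO hOl hcp in
/-- a step is wrong -/
theorem e15 {t : ℕ} (ht : t < 2 * P.L) :
    E (15, t) = true ↔ P.wrong X (decide (t % 2 = 1)) (t / 2) := by
  have hLT := Par.LT (P := P)
  have hBT := Par.BT (P := P)
  have hL : P.L = P.n + 2 * P.m := rfl
  have h13 := sat_and (sat_blocks hE (i := 12) rfl t ht)
  have h14 := sat_and (sat_blocks hE (i := 13) rfl t ht)
  have h15 := sat_or (sat_blocks hE (i := 14) rfl t ht)
  rw [exists_cons, exists_cons, exists_nil, or_false] at h15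
  rw [List.forall_mem_cons, List.forall_mem_cons, forall_nil, and_true] at h13 h14
  rw [show (15, t) = (1 + 14, t) from rfl, h15, show (13, t) = (1 + 12, t) from rfl,
    show (14, t) = (1 + 13, t) from rfl, h13, h14, h0 _ (wi_lt hL hLT hBT ht),
    e1 hE h0 (wi_lt hL hLT hBT ht)]
  unfold Par.wrong
  by_cases h : t / 2 < 2 * P.m
  · have e1 : wi P.m P.B t = (2 + (decide (t / 2 % 2 = 1)).toNat) * P.B + t / 2 / 2 := by
      unfold wi
      rw [if_pos h, toNat_decide_mod]
    have e2 : wc P.m t = (!decide (t % 2 = 1)).toNat := by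
      unfold wc
      rw [if_pos h, toNat_not_decide_mod]
    have e3 : wo P.n P.m O t = O.getD (P.n + t / 2 / 2) 0 := by
      unfold wo
      rw [if_pos h]
    rw [e1, e2, e3, hcp _ _ (by omega), e11 hE hO hOl hcp _ (by omega), if_pos h]
    unfold cv
    rw [if_neg (by omega), Nat.add_sub_cancel_left]
    change _ ↔ X ((2 + (decide (t / 2 % 2 = 1)).toNat) * P.B + t / 2 / 2) ≠ _
    cases X ((2 + (decide (t / 2 % 2 = 1)).toNat) * P.B + t / 2 / 2) <;>
      cases P.cs (P.v X (!decide (t % 2 = 1))) (t / 2 / 2) <;> simp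
  · have e1 : wi P.m P.B t = (4 + (!decide (t % 2 = 1)).toNat) * P.B + (t / 2 - 2 * P.m) := by
      unfold wi
      rw [if_neg h, toNat_not_decide_mod]
    have e2 : wc P.m t = (decide (t % 2 = 1)).toNat := by
      unfold wc
      rw [if_neg h, toNat_decide_mod]
    have e3 : wo P.n P.m O t = O.getD (t / 2 - 2 * P.m) 0 := by
      unfold wo
      rw [if_neg h]
    rw [e1, e2, e3, hcp _ _ (by omega), e11 hE hO hOl hcp _ (by omega), if_neg h]
    unfold cv
    rw [if_pos (by omega)]
    change _ ↔ X ((4 + (!decide (t % 2 = 1)).toNat) * P.B + (t / 2 - 2 * P.m)) ≠ _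
    cases X ((4 + (!decide (t % 2 = 1)).toNat) * P.B + (t / 2 - 2 * P.m)) <;>
      cases P.nx (P.v X (decide (t % 2 = 1))) (t / 2 - 2 * P.m) <;> simp

include hE h0 hO hOl hcp in
theorem e16 : (∃ t < 8 * P.m, E (16, t) = true) ↔ P.V1 X := by
  have hLT := Par.LT (P := P)
  have hBT := Par.BT (P := P)
  have hL : P.L = P.n + 2 * P.m := rfl
  have key : ∀ t < 8 * P.m, E (16, t) = true ↔
      P.c X P.T = false ∧ P.AA X (t / 8) = decide (t / 4 % 2 = 1) ∧
      P.w X = decide (t / 2 % 2 = 1) ∧
      P.z X (decide (t / 4 % 2 = 1)) (t / 8) = decide (t % 2 = 1) ∧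
      P.cs (P.v X (decide (t / 2 % 2 = 1))) (t / 8) = !decide (t % 2 = 1) := by
    intro t ht
    have h16 := sat_and (sat_blocks hE (i := 15) rfl t ht)
    rw [List.forall_mem_cons, List.forall_mem_cons, List.forall_mem_cons, List.forall_mem_cons,
      List.forall_mem_cons, forall_nil, and_true] at h16
    rw [show (16, t) = (1 + 15, t) from rfl, h16, e7 hE h0 (by omega),
      esel hE h0 (r := P.m - t / 8) (s := t / 4 % 2) (by omega) (by omega),
      esel hE h0 (r := P.m) (s := t / 2 % 2) (by omega) (by omega),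
      elit hE h0 (mul_bound (by omega) (by omega))]
    refine and_congr (by cases P.c X P.T <;> simp) (and_congr Iff.rfl (and_congr Iff.rfl
      (and_congr ?_ ?_)))
    · unfold Par.z Par.a
      rw [toNat_decide_mod]
    · have hcv : ∀ s, cv P X s (P.n + t / 8) = P.cs (P.v X s) (t / 8) := by
        intro s
        unfold cv
        rw [if_neg (by omega), Nat.add_sub_cancel_left]
      rcases Nat.mod_two_eq_zero_or_one t with h | h
      · have h1 := hcp (decide (t / 2 % 2 = 1)) (P.n + t / 8) (by omega)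
        rw [toNat_decide_mod, hcv] at h1
        rw [h, Nat.mul_zero, Nat.add_zero, h1]
        simp
      · have h1 := e11 hE hO hOl hcp (decide (t / 2 % 2 = 1)) (q := P.n + t / 8) (by omega)
        rw [toNat_decide_mod, hcv] at h1
        rw [h, show 9 + 2 * 1 = 11 from rfl, h1]
        simp
  constructor
  · rintro ⟨t, ht, h⟩
    obtain ⟨h1, h2, h3, h4, h5⟩ := (key t ht).1 h
    refine ⟨h1, t / 8, by omega, ?_⟩
    rw [h2, h3, h4, h5]
    cases decide (t % 2 = 1) <;> simp
  · rintro ⟨h1, j, hj, h2⟩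
    have b1 := Bool.toNat_le (P.AA X j)
    have b2 := Bool.toNat_le (P.w X)
    have b3 := Bool.toNat_le (P.z X (P.AA X j) j)
    obtain ⟨t, ht⟩ : ∃ t, t = 8 * j + 4 * (P.AA X j).toNat + 2 * (P.w X).toNat +
      (P.z X (P.AA X j) j).toNat := ⟨_, rfl⟩
    refine ⟨t, by omega, (key t (by omega)).2 ?_⟩
    rw [show t / 8 = j by omega, show t / 4 % 2 = (P.AA X j).toNat by omega,
      show t / 2 % 2 = (P.w X).toNat by omega,
      show t % 2 = (P.z X (P.AA X j) j).toNat by omega, toNat_sub, toNat_sub, toNat_sub]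
    refine ⟨h1, rfl, rfl, rfl, ?_⟩
    cases h3 : P.z X (P.AA X j) j <;> cases h4 : P.cs (P.v X (P.w X)) j <;> simp_all

include hE h0 hO hOl hcp in
theorem e17 : (∃ t < 2 * P.L, E (17, t) = true) ↔ P.V2 X := by
  have hLT := Par.LT (P := P)
  have hBT := Par.BT (P := P)
  have hL : P.L = P.n + 2 * P.m := rfl
  have key : ∀ t < 2 * P.L, E (17, t) = true ↔
      P.w X = decide (t % 2 = 1) ∧ P.wrong X (decide (t % 2 = 1)) (t / 2) ∧
      P.free X (t / 2) ∧ ∀ i, t / 2 ≤ i → i < P.L → P.g X i = decide (t % 2 = 1) := by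
    intro t ht
    have h17 := sat_and (sat_blocks hE (i := 16) rfl t ht)
    rw [List.forall_mem_cons, List.forall_mem_cons, List.forall_mem_cons] at h17
    have e1 := esel hE h0 (r := P.m) (s := t % 2) (by omega) (by omega)
    rw [show (17, t) = (1 + 16, t) from rfl, h17, e15 hE h0 hO hOl hcp ht, e1]
    refine and_congr_right fun hw => and_congr Iff.rfl (and_congr ?_ ?_)
    · unfold Par.free
      by_cases h : t / 2 < 2 * P.m
      · rw [if_pos h]
        have e2 := esel hE h0 (r := P.m - t / 2 / 2) (s := 1 - t / 2 % 2) (by omega) (by omega)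
        rw [show 3 - (1 - t / 2 % 2) = 2 + t / 2 % 2 by omega] at e2
        rw [e2]
        have e3 : P.Ar X (P.m - t / 2 / 2) = P.AA X (t / 2 / 2) := rfl
        rw [e3]
        constructor
        · intro h1 _
          rw [h1]
          rcases Nat.mod_two_eq_zero_or_one (t / 2) with h2 | h2
          · rw [h2]
            simp
          · rw [h2]
            simp
        · intro h1
          have h1 := h1 h
          rcases Nat.mod_two_eq_zero_or_one (t / 2) with h2 | h2
          · rw [h2] at h1 ⊢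
            simpa using h1
          · rw [h2] at h1 ⊢
            simpa using h1
      · rw [if_neg h, e1]
        exact ⟨fun _ h' => absurd h' h, fun _ => hw⟩
    · constructor
      · intro h i hi hiL
        have h1 := h (lit (t % 2) (P.B + i)) (List.mem_map.2 ⟨i, List.mem_filter.2
          ⟨List.mem_range.2 hiL, decide_eq_true hi⟩, rfl⟩)
        rwa [elit hE h0 (by omega), ← g_def (P := P) (X := X) i] at h1
      · intro h r hr
        obtain ⟨i, hi, rfl⟩ := List.mem_map.1 hr
        rw [List.mem_filter, List.mem_range, decide_eq_true_eq] at hi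
        rw [elit hE h0 (by omega), ← g_def (P := P) (X := X) i]
        exact h i hi.2 hi.1
  constructor
  · rintro ⟨t, ht, h⟩
    obtain ⟨h1, h2, h3, h4⟩ := (key t ht).1 h
    refine ⟨t / 2, by omega, ?_, h3, ?_⟩
    · intro i hi hiL
      rw [h4 i hi hiL, h1]
    · rwa [h1]
  · rintro ⟨k, hk, h1, h2, h3⟩
    have b2 := Bool.toNat_le (P.w X)
    obtain ⟨t, ht⟩ : ∃ t, t = 2 * k + (P.w X).toNat := ⟨_, rfl⟩
    refine ⟨t, by omega, (key t (by omega)).2 ?_⟩
    rw [show t / 2 = k by omega, show t % 2 = (P.w X).toNat by omega, toNat_sub]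
    exact ⟨rfl, h3, h2, h1⟩

include hE h0 hO hOl hcp in
theorem e18 : (∃ t < 2 * P.L, E (18, t) = true) ↔ P.PP X := by
  have hLT := Par.LT (P := P)
  have hBT := Par.BT (P := P)
  have hL : P.L = P.n + 2 * P.m := rfl
  have key : ∀ t < 2 * P.L, E (18, t) = true ↔
      P.wrong X (decide (t % 2 = 1)) (t / 2) ∧
      (0 < t / 2 → P.f X (t / 2 - 1) ≠ decide (t % 2 = 1)) ∧
      ∀ i, t / 2 ≤ i → i < P.L → P.f X i = decide (t % 2 = 1) := by
    intro t ht
    have h18 := sat_and (sat_blocks hE (i := 17) rfl t ht)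
    rw [List.forall_mem_cons, List.forall_mem_cons] at h18
    rw [show (18, t) = (1 + 17, t) from rfl, h18, e15 hE h0 hO hOl hcp ht]
    refine and_congr_right fun hw => and_congr ?_ ?_
    · by_cases h : t / 2 = 0
      · rw [if_pos h, e15 hE h0 hO hOl hcp ht]
        exact ⟨fun _ h' => absurd h' (by omega), fun _ => hw⟩
      · rw [if_neg h, elit hE h0 (by omega), ← f_def (P := P) (X := X) (t / 2 - 1)]
        have : decide (1 - t % 2 = 1) = !decide (t % 2 = 1) := by
          rcases Nat.mod_two_eq_zero_or_one t with h2 | h2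
          · rw [h2]
            rfl
          · rw [h2]
            rfl
        rw [this]
        constructor
        · intro h1 _
          rw [h1]
          cases decide (t % 2 = 1) <;> simp
        · intro h1
          have h1 := h1 (by omega)
          cases h2 : P.f X (t / 2 - 1) <;> cases h3 : decide (t % 2 = 1) <;> simp_all
    · constructor
      · intro h i hi hiL
        have h1 := h (lit (t % 2) i) (List.mem_map.2 ⟨i, List.mem_filter.2
          ⟨List.mem_range.2 hiL, decide_eq_true hi⟩, rfl⟩)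
        rwa [elit hE h0 (by omega), ← f_def (P := P) (X := X) i] at h1
      · intro h r hr
        obtain ⟨i, hi, rfl⟩ := List.mem_map.1 hr
        rw [List.mem_filter, List.mem_range, decide_eq_true_eq] at hi
        rw [elit hE h0 (by omega), ← f_def (P := P) (X := X) i]
        exact h i hi.2 hi.1
  constructor
  · rintro ⟨t, ht, h⟩
    obtain ⟨h1, h2, h3⟩ := (key t ht).1 h
    have h4 := h3 (P.L - 1) (by omega) (by omega)
    refine ⟨t / 2, by omega, ?_, ?_, ?_⟩
    · intro i hi hiL
      rw [h4, h3 i hi hiL]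
    · rw [h4]
      exact h2
    · rwa [h4]
  · rintro ⟨k, hk, h1, h2, h3⟩
    have b2 := Bool.toNat_le (P.f X (P.L - 1))
    obtain ⟨t, ht⟩ : ∃ t, t = 2 * k + (P.f X (P.L - 1)).toNat := ⟨_, rfl⟩
    refine ⟨t, by omega, (key t (by omega)).2 ?_⟩
    rw [show t / 2 = k by omega, show t % 2 = (P.f X (P.L - 1)).toNat by omega, toNat_sub]
    exact ⟨h3, h2, h1⟩

include hE h0 hO hOl hcp in
/-- the outputs are as intended -/
theorem e25 {p : ℕ} (hp : p < 2 * P.T + 3) : E (25, p) = true ↔ P.O X p := by
  have hLT := Par.LT (P := P)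
  have hBT := Par.BT (P := P)
  have hL : P.L = P.n + 2 * P.m := rfl
  have h25 := sat_or (sat_blocks hE (i := 24) rfl p hp)
  rw [show (25, p) = (1 + 24, p) from rfl, h25]
  unfold outf Par.O
  by_cases h1 : p = 0
  · rw [if_pos h1, if_pos h1, exists_cons, exists_nil, or_false]
    have h20 := sat_or (sat_blocks hE (i := 19) rfl 0 Nat.one_pos)
    rw [exists_cons, exists_ws, e2 hE h0] at h20
    rw [show (20, 0) = (1 + 19, 0) from rfl, h20, ← e18 hE h0 hO hOl hcp]
    simp only [Bool.false_eq_true, false_or, List.mem_range]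
  rw [if_neg h1, if_neg h1]
  by_cases h2 : p % 2 = 1
  · rw [if_pos h2, if_pos h2]
    by_cases h3 : p / 2 < P.L
    · rw [if_pos h3, if_pos h3, exists_cons, exists_nil, or_false, e5 hE h0 (by omega)]
      cases P.f X (p / 2) <;> cases P.g X (p / 2) <;> simp
    rw [if_neg h3, if_neg h3]
    by_cases h4 : p / 2 < P.T
    · rw [if_pos h4, if_pos h4, exists_cons, exists_cons, exists_nil, or_false]
      have h23 := sat_and (sat_blocks hE (i := 22) rfl (p / 2 - P.L) (by
        change p / 2 - P.L < P.m
        omega))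
      have h24 := sat_and (sat_blocks hE (i := 23) rfl (p / 2 - P.L) (by
        change p / 2 - P.L < P.m
        omega))
      rw [List.forall_mem_cons, List.forall_mem_cons, forall_nil, and_true,
        show P.L + (p / 2 - P.L) = p / 2 by omega] at h23 h24
      rw [e6 hE h0 (by omega), h0 _ (by omega)] at h23
      rw [e7 hE h0 (by omega), h0 _ (by omega)] at h24
      rw [show (23, p / 2 - P.L) = (1 + 22, p / 2 - P.L) from rfl,
        show (24, p / 2 - P.L) = (1 + 23, p / 2 - P.L) from rfl, h23, h24]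
      cases P.c X (p / 2) with
      | false =>
        change _ ↔ X (2 * P.B + (p / 2 - P.L)) = true
        simp
      | true =>
        change _ ↔ X (3 * P.B + (p / 2 - P.L)) = true
        simp
    · rw [if_neg h4, if_neg h4, exists_cons, exists_nil, or_false, e6 hE h0 (by omega)]
  · rw [if_neg h2, if_neg h2]
    by_cases h3 : p / 2 - 1 < P.T
    · rw [if_pos h3, if_pos h3, exists_cons, exists_cons, exists_nil, or_false]
      have h21 := sat_and (sat_blocks hE (i := 20) rfl (p / 2 - 1) h3)
      have h22 := sat_and (sat_blocks hE (i := 21) rfl (p / 2 - 1) h3)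
      rw [List.forall_mem_cons, List.forall_mem_cons, forall_nil, and_true,
        show p / 2 - 1 + 1 = p / 2 by omega] at h21 h22
      rw [h0 _ (by omega), e7 hE h0 (by omega)] at h21
      rw [e1 hE h0 (by omega), e6 hE h0 (by omega)] at h22
      rw [show (21, p / 2 - 1) = (1 + 20, p / 2 - 1) from rfl,
        show (22, p / 2 - 1) = (1 + 21, p / 2 - 1) from rfl, h21, h22, f_def]
      cases X (p / 2 - 1) <;> cases P.c X (p / 2) <;> simp
    · rw [if_neg h3, if_neg h3, exists_cons, exists_nil, or_false]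
      have h19 := sat_or (sat_blocks hE (i := 18) rfl 0 Nat.one_pos)
      rw [exists_cons, e2 hE h0] at h19
      rw [show (19, 0) = (1 + 18, 0) from rfl, h19, ← e16 hE h0 hO hOl hcp,
        ← e17 hE h0 hO hOl hcp]
      simp only [Bool.false_eq_true, false_or]
      constructor
      · rintro ⟨r, hr, h⟩
        rcases List.mem_append.1 hr with hr | hr
        · obtain ⟨a1, a2⟩ := mem_ws.1 hr
          left
          refine ⟨r.2, List.mem_range.1 a2, ?_⟩
          rw [← a1]
          exact h
        · obtain ⟨a1, a2⟩ := mem_ws.1 hr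
          right
          refine ⟨r.2, List.mem_range.1 a2, ?_⟩
          rw [← a1]
          exact h
      · rintro (⟨t, ht, h⟩ | ⟨t, ht, h⟩)
        · exact ⟨(16, t), List.mem_append_left _ (mem_ws.2 ⟨rfl, List.mem_range.2 ht⟩), h⟩
        · exact ⟨(17, t), List.mem_append_right _ (mem_ws.2 ⟨rfl, List.mem_range.2 ht⟩), h⟩

end

end Pool.Agent.MPa0a715.IN
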