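import Pool.Agent.Lib.MP_a0a715_lc_IN.Sem

/-!
# Every variable influences at most three outputs
-/

namespace Pool.Agent.MPa0a715.IN

namespace Par

variable {P : Par} {X Y : ℕ → Bool}

theorem odd_congr {t : ℕ} (ht : t ≤ P.T) (hf : P.f X t = P.f Y t) (hg : P.g X t = P.g Y t)
    (hz : ∀ s, ∀ j < P.m, P.L + j = t → P.z X s j = P.z Y s j) :
    P.O X (2 * t + 1) ↔ P.O Y (2 * t + 1) := by
  rw [O_odd, O_odd]
  have hc : P.c X t = P.c Y t := c_congr (fun _ => hf) hg
  have hLT := LT (P := P)
  split_ifs with h1 h2
  · rw [hf, hg]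
  · rw [hc, hz _ _ (by omega) (by omega)]
  · have : t = P.T := by omega
    subst this
    rw [hc]

theorem even_congr {t : ℕ} (ht : t < P.T) (hf : P.f X t = P.f Y t)
    (hc : P.c X (t + 1) = P.c Y (t + 1)) :
    P.O X (2 * t + 2) ↔ P.O Y (2 * t + 2) := by
  rw [O_E ht, O_E ht, hf, hc]

theorem infl_spec {i : ℕ} (hi : i < 6 * P.B) {p : ℕ} (hp : p < P.M) (hS : p ∉ P.infl i) :
    P.O (fl X i) p ↔ P.O X p := by
  have hLT := LT (P := P)
  have hBT := BT (P := P)
  have hMT : P.M = 2 * P.T + 3 := rfl
  have hL : P.L = P.n + 2 * P.m := rfl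
  unfold infl at hS
  have hpc : p = 0 ∨ (∃ t ≤ P.T, p = 2 * t + 1) ∨ (∃ t ≤ P.T, p = 2 * t + 2) := by
    rcases Nat.eq_zero_or_pos p with h | h
    · exact Or.inl h
    · right
      rcases Nat.mod_two_eq_zero_or_one p with h1 | h1
      · exact Or.inr ⟨p / 2 - 1, by omega, by omega⟩
      · exact Or.inl ⟨p / 2, by omega, by omega⟩
  by_cases h1 : i < P.B
  · rw [if_pos h1] at hS
    obtain ⟨hf, hg, hz, hv⟩ := flip_f (X := X) h1
    simp only [Finset.mem_insert, Finset.mem_singleton, not_or] at hS
    obtain ⟨s1, s2, s3⟩ := hS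
    rcases hpc with rfl | ⟨t, ht, rfl⟩ | ⟨t, ht, rfl⟩
    · have hiL : P.L ≤ i := by
        by_contra hcon
        rw [if_pos (by omega)] at s3
        exact s3 rfl
      rw [O_zero, O_zero]
      refine PP_congr ?_ ?_ ?_
      · intro t ht
        rw [hf _ (by omega), if_neg (by omega)]
      · intro s j hj
        exact hz _ _ (by omega)
      · intro s j hj
        exact hv _ _ (by omega)
    · refine odd_congr ht ?_ (hg _ (by omega)) ?_
      · rw [hf _ (by omega), if_neg (by omega)]
      · intro s j hj _
        exact hz _ _ (by omega)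
    · rcases Nat.lt_or_eq_of_le ht with h2 | rfl
      · refine even_congr h2 ?_ ?_
        · rw [hf _ (by omega), if_neg (by omega)]
        · refine c_congr ?_ (hg _ (by omega))
          intro h3
          rw [hf _ (by omega), if_neg]
          intro h4
          rw [if_neg (by omega)] at s3
          omega
      · rw [O_V, O_V]
        refine V_congr ?_ ?_ ?_ ?_
        · rw [hf _ (by omega), if_neg (by omega)]
        · intro t ht
          exact hg _ (by omega)
        · intro s j hj
          exact hz _ _ (by omega)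
        · intro s j hj
          exact hv _ _ (by omega)
  · rw [if_neg h1] at hS
    by_cases h2 : i < 2 * P.B
    · rw [if_pos h2] at hS
      obtain ⟨t₀, ht₀, rfl⟩ : ∃ t₀ < P.B, i = P.B + t₀ := ⟨i - P.B, by omega, by omega⟩
      rw [Nat.add_sub_cancel_left] at hS
      obtain ⟨hf, hg, hz, hv⟩ := flip_g (X := X) ht₀
      simp only [Finset.mem_insert, Finset.mem_singleton, not_or] at hS
      obtain ⟨s1, s2, s3⟩ := hS
      rcases hpc with rfl | ⟨t, ht, rfl⟩ | ⟨t, ht, rfl⟩
      · rw [O_zero, O_zero]
        refine PP_congr ?_ ?_ ?_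
        · intro t ht
          exact hf _ (by omega)
        · intro s j hj
          exact hz _ _ (by omega)
        · intro s j hj
          exact hv _ _ (by omega)
      · refine odd_congr ht (hf _ (by omega)) ?_ ?_
        · rw [hg _ (by omega), if_neg (by omega)]
        · intro s j hj _
          exact hz _ _ (by omega)
      · have h2 : t < P.T := by omega
        refine even_congr h2 (hf _ (by omega)) ?_
        refine c_congr (fun _ => hf _ (by omega)) ?_
        rw [hg _ (by omega), if_neg (by omega)]
    · rw [if_neg h2] at hS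
      by_cases h3 : i < 4 * P.B
      · rw [if_pos h3] at hS
        obtain ⟨s₀, t₀, ht₀, rfl⟩ : ∃ (s₀ : Bool) (t₀ : ℕ), t₀ < P.B ∧
            i = (2 + s₀.toNat) * P.B + t₀ := by
          by_cases h4 : i < 3 * P.B
          · exact ⟨false, i - 2 * P.B, by omega, by simp; omega⟩
          · exact ⟨true, i - 3 * P.B, by omega, by simp; omega⟩
        have hmod : ((2 + s₀.toNat) * P.B + t₀) % P.B = t₀ := by
          rw [Nat.mul_add_mod', Nat.mod_eq_of_lt ht₀]
        rw [hmod] at hS
        obtain ⟨hf, hg, hz, hv⟩ := flip_z (X := X) (s₀ := s₀) ht₀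
        simp only [Finset.mem_insert, Finset.mem_singleton, not_or] at hS
        obtain ⟨s1, s2, s3⟩ := hS
        rcases hpc with rfl | ⟨t, ht, rfl⟩ | ⟨t, ht, rfl⟩
        · exact absurd rfl s2
        · refine odd_congr ht (hf _ (by omega)) (hg _ (by omega)) ?_
          intro s j hj h5
          rw [hz _ _ (by omega), if_neg]
          omega
        · have h2 : t < P.T := by omega
          refine even_congr h2 (hf _ (by omega)) ?_
          exact c_congr (fun _ => hf _ (by omega)) (hg _ (by omega))
      · rw [if_neg h3] at hS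
        obtain ⟨s₀, t₀, ht₀, rfl⟩ : ∃ (s₀ : Bool) (t₀ : ℕ), t₀ < P.B ∧
            i = (4 + s₀.toNat) * P.B + t₀ := by
          by_cases h4 : i < 5 * P.B
          · exact ⟨false, i - 4 * P.B, by omega, by simp; omega⟩
          · exact ⟨true, i - 5 * P.B, by omega, by simp; omega⟩
        obtain ⟨hf, hg, hz, hv⟩ := flip_v (X := X) (s₀ := s₀) ht₀
        simp only [Finset.mem_insert, Finset.mem_singleton, not_or] at hS
        obtain ⟨s1, s2⟩ := hS
        rcases hpc with rfl | ⟨t, ht, rfl⟩ | ⟨t, ht, rfl⟩
        · exact absurd rfl s2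
        · refine odd_congr ht (hf _ (by omega)) (hg _ (by omega)) ?_
          intro s j hj h5
          exact hz _ _ (by omega)
        · have h2 : t < P.T := by omega
          refine even_congr h2 (hf _ (by omega)) ?_
          exact c_congr (fun _ => hf _ (by omega)) (hg _ (by omega))

end Par

end Pool.Agent.MPa0a715.IN
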