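import Pool.Agent.Lib.MP_a0a715_lc_IN.Infl

/-!
# Local minima of the constructed problem
-/

namespace Pool.Agent.MPa0a715.IN

namespace Par

variable {P : Par} {X Y : ℕ → Bool}

/-- no flip gives smaller outputs -/
def LM (P : Par) (X : ℕ → Bool) : Prop :=
  ∀ i < 6 * P.B, ¬ ∃ p < P.M, P.O X p ∧ ¬ P.O (fl X i) p ∧
    ∀ q < P.M, p < q → (P.O (fl X i) q ↔ P.O X q)

theorem lm_use (h : P.LM X) {i p : ℕ} (hi : i < 6 * P.B) (hp : p < P.M) (h1 : P.O X p)
    (h2 : ∀ q ∈ P.infl i, p < q → (P.O (fl X i) q ↔ P.O X q)) : P.O (fl X i) p := by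
  by_contra hcon
  refine h i hi ⟨p, hp, h1, hcon, fun q hq hpq => ?_⟩
  by_cases hS : q ∈ P.infl i
  · exact h2 q hS hpq
  · exact infl_spec hi hq hS

theorem bne_flip {a b : Bool} (h : a ≠ b) : ¬ ((!a) ≠ b) := by
  cases a <;> cases b <;> simp_all

theorem mem_infl_f {t q : ℕ} (ht : t < P.B) (hq : q ∈ P.infl t) :
    q = 2 * t + 2 ∨ q = 2 * t + 1 ∨ q ≤ 2 * t := by
  unfold infl at hq
  rw [if_pos ht] at hq
  simp only [Finset.mem_insert, Finset.mem_singleton] at hq
  rcases hq with h | h | h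
  · exact Or.inl h
  · exact Or.inr (Or.inl h)
  · right; right
    split_ifs at h <;> omega

theorem mem_infl_g {t q : ℕ} (ht : t < P.B) (hq : q ∈ P.infl (P.B + t)) :
    q = 2 * P.T + 2 ∨ q = 2 * t + 1 ∨ q = 2 * t := by
  unfold infl at hq
  rw [if_neg (by omega), if_pos (by omega)] at hq
  simpa only [Finset.mem_insert, Finset.mem_singleton, Nat.add_sub_cancel_left] using hq

theorem mem_infl_z {s : Bool} {t q : ℕ} (ht : t < P.B)
    (hq : q ∈ P.infl ((2 + s.toNat) * P.B + t)) :
    q = 2 * P.T + 2 ∨ q = 0 ∨ q = 2 * (P.L + t) + 1 := by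
  unfold infl at hq
  have h1 : P.B + P.B ≤ (2 + s.toNat) * P.B := by
    have := Nat.mul_le_mul_right P.B (show 2 ≤ 2 + s.toNat by omega)
    omega
  have h2 : (2 + s.toNat) * P.B ≤ 3 * P.B := by
    have := Bool.toNat_le s
    exact Nat.mul_le_mul_right _ (by omega)
  rw [if_neg (by omega), if_neg (by omega), if_pos (by omega), Nat.mul_add_mod',
    Nat.mod_eq_of_lt ht] at hq
  simpa only [Finset.mem_insert, Finset.mem_singleton] using hq

theorem mem_infl_v {s : Bool} {t q : ℕ}
    (hq : q ∈ P.infl ((4 + s.toNat) * P.B + t)) : q = 2 * P.T + 2 ∨ q = 0 := by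
  unfold infl at hq
  have h1 : 4 * P.B ≤ (4 + s.toNat) * P.B := Nat.mul_le_mul_right P.B (by omega)
  have h0 : 0 < P.B := by unfold B; omega
  rw [if_neg (by omega), if_neg (by omega), if_neg (by omega)] at hq
  simpa only [Finset.mem_insert, Finset.mem_singleton] using hq

/-! ### the chain -/

theorem chain (h : P.LM X) {t : ℕ} (ht : t < P.T) : P.f X t = P.c X (t + 1) := by
  by_contra hne
  have hMT : P.M = 2 * P.T + 3 := rfl
  have hBT := BT (P := P)
  have htB : t < P.B := by omega
  obtain ⟨hf, hg, hz, hv⟩ := flip_f (X := X) htB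
  have h1 := lm_use h (i := t) (p := 2 * t + 2) (by omega) (by omega) ((O_E ht).2 hne) (by
    intro q hq hpq
    have := mem_infl_f htB hq
    omega)
  rw [O_E ht, hf _ htB, if_pos rfl] at h1
  have h2 : P.c (fl X t) (t + 1) = P.c X (t + 1) := by
    refine c_congr (fun _ => ?_) (hg _ (by omega))
    rw [hf _ (by omega), if_neg (by omega)]
  rw [h2] at h1
  exact bne_flip hne h1

theorem c_lt {t : ℕ} (h : t < P.L) : P.c X t = P.g X t := by
  unfold c
  rw [if_pos h]

theorem c_ge {t : ℕ} (h : P.L ≤ t) : P.c X t = (P.f X t != P.g X t) := by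
  unfold c
  rw [if_neg (by omega)]

theorem Ar_eq (h : P.LM X) {r : ℕ} (hr : r ≤ P.m) : P.Ar X r = P.c X (P.T - r) := by
  have hLT := LT (P := P)
  induction r with
  | zero => rfl
  | succ r ih =>
    have h1 : P.T - (r + 1) + 1 = P.T - r := by omega
    unfold Ar
    rw [ih (by omega), c_ge (t := P.T - (r + 1)) (by omega), chain h (by omega), h1]

theorem c_AA (h : P.LM X) {j : ℕ} (hj : j ≤ P.m) : P.c X (P.L + j) = P.AA X j := by
  have hLT := LT (P := P)
  unfold AA
  rw [Ar_eq h (by omega)]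
  congr 1
  omega

theorem c_L (h : P.LM X) : P.c X P.L = P.w X := by
  have := c_AA h (Nat.zero_le P.m)
  exact this

theorem f_last (h : P.LM X) (hL : 0 < P.L) : P.f X (P.L - 1) = P.w X := by
  have hLT := LT (P := P)
  by_cases hT : P.L - 1 < P.T
  · rw [chain h hT, ← c_L h, show P.L - 1 + 1 = P.L by omega]
  · omega

theorem f_low (h : P.LM X) {k : ℕ} (hk : k + 1 < P.L) : P.f X k = P.g X (k + 1) := by
  have hLT := LT (P := P)
  rw [chain h (by omega), c_lt hk]

/-! ### flips at the top -/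

/-- flipping the top follower changes all selectors -/
theorem Ar_flip_top (r : ℕ) : P.Ar (fl X P.T) r = !P.Ar X r := by
  have hBT := BT (P := P)
  have hLT := LT (P := P)
  obtain ⟨hf, hg, hz, hv⟩ := flip_f (P := P) (X := X) (t₀ := P.T) (by omega)
  induction r with
  | zero =>
    unfold Ar
    rw [c_ge (by omega), c_ge (by omega), hf _ (by omega), if_pos rfl, hg _ (by omega)]
    cases P.f X P.T <;> cases P.g X P.T <;> rfl
  | succ r ih =>
    unfold Ar
    rw [ih, hg _ (by omega)]
    cases P.Ar X r <;> cases P.g X (P.T - (r + 1)) <;> rfl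

/-- flipping clock bits does not change the selectors -/
theorem Ar_flip_clock {k r : ℕ} (hk : k < P.L) (hr : r ≤ P.m) :
    P.Ar (fl X (P.B + k)) r = P.Ar X r := by
  have hBT := BT (P := P)
  have hLT := LT (P := P)
  obtain ⟨hf, hg, hz, hv⟩ := flip_g (P := P) (X := X) (t₀ := k) (by omega)
  induction r with
  | zero =>
    refine c_congr (fun _ => hf _ (by omega)) ?_
    rw [hg _ (by omega), if_neg (by omega)]
  | succ r ih =>
    unfold Ar
    rw [ih (by omega), hg _ (by omega), if_neg (by omega)]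

theorem c_flip_clock {k : ℕ} (hk : k < P.L) : P.c (fl X (P.B + k)) P.T = P.c X P.T :=
  Ar_flip_clock (r := 0) hk (Nat.zero_le _)

theorem w_flip_clock {k : ℕ} (hk : k < P.L) : P.w (fl X (P.B + k)) = P.w X :=
  Ar_flip_clock hk le_rfl

theorem AA_flip_clock {k : ℕ} (hk : k < P.L) (j : ℕ) :
    P.AA (fl X (P.B + k)) j = P.AA X j :=
  Ar_flip_clock hk (Nat.sub_le _ _)

theorem V1_flip_clock {k : ℕ} (hk : k < P.L) : P.V1 (fl X (P.B + k)) ↔ P.V1 X := by
  have hBT := BT (P := P)
  have hLT := LT (P := P)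
  obtain ⟨hf, hg, hz, hv⟩ := flip_g (P := P) (X := X) (t₀ := k) (by omega)
  unfold V1
  rw [c_flip_clock hk, w_flip_clock hk, cs_congr (Y := X) fun i hi => hv _ _ (by
    have : P.L = P.n + 2 * P.m := rfl
    omega)]
  refine and_congr_right fun _ => exists_congr fun j => and_congr_right fun hj => ?_
  rw [AA_flip_clock hk, hz _ _ (by omega)]

theorem wrong_flip_clock {k k' : ℕ} (hk : k < P.L) (hk' : k' < P.L) (ω : Bool) :
    P.wrong (fl X (P.B + k)) ω k' ↔ P.wrong X ω k' := by
  have hBT := BT (P := P)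
  have hLT := LT (P := P)
  have hL : P.L = P.n + 2 * P.m := rfl
  obtain ⟨hf, hg, hz, hv⟩ := flip_g (P := P) (X := X) (t₀ := k) (by omega)
  exact wrong_congr hk' (fun s j hj => hz _ _ (by omega)) (fun s i hi => hv _ _ (by omega))

theorem free_flip_clock {k k' : ℕ} (hk : k < P.L) :
    P.free (fl X (P.B + k)) k' ↔ P.free X k' := by
  unfold free
  rw [AA_flip_clock hk]

theorem V2_flip_clock {k : ℕ} (hk : k < P.L) :
    P.V2 (fl X (P.B + k)) ↔ ∃ k' < P.L, (∀ i, k' ≤ i → i < P.L →
      (if i = k then !P.g X i else P.g X i) = P.w X) ∧ P.free X k' ∧ P.wrong X (P.w X) k' := by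
  have hBT := BT (P := P)
  have hLT := LT (P := P)
  obtain ⟨hf, hg, hz, hv⟩ := flip_g (P := P) (X := X) (t₀ := k) (by omega)
  unfold V2
  rw [w_flip_clock hk]
  refine exists_congr fun k' => and_congr_right fun hk' => and_congr ?_
    (and_congr (free_flip_clock hk) (wrong_flip_clock hk hk' _))
  refine forall_congr' fun i => imp_congr_right fun _ => imp_congr_right fun hi => ?_
  rw [hg _ (by omega)]

/-! ### the top output vanishes -/

theorem clock_follow (h : P.LM X) (hV : P.V1 X ∨ P.V2 X) {k : ℕ} (hk : k < P.L) :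
    P.g X k = P.f X k := by
  by_contra hne
  have hMT : P.M = 2 * P.T + 3 := rfl
  have hBT := BT (P := P)
  have hLT := LT (P := P)
  have hkB : k < P.B := by omega
  obtain ⟨hf, hg, hz, hv⟩ := flip_g (X := X) hkB
  have h0 : P.O (fl X (P.B + k)) (2 * P.T + 2) :=
    lm_use h (i := P.B + k) (p := 2 * P.T + 2) (by omega) (by omega) (O_V.2 hV) (by
      intro q hq hpq
      have := mem_infl_g hkB hq
      omega)
  have h1 := lm_use h (i := P.B + k) (p := 2 * k + 1) (by omega) (by omega) ((O_Q hk).2 hne) (by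
    intro q hq hpq
    have h2 : q = 2 * P.T + 2 := by
      have := mem_infl_g hkB hq
      omega
    rw [h2]
    exact ⟨fun _ => O_V.2 hV, fun _ => h0⟩)
  rw [O_Q hk, hg _ hkB, if_pos rfl, hf _ hkB] at h1
  exact bne_flip hne h1

theorem clock_all (h : P.LM X) (hq : ∀ k < P.L, P.g X k = P.f X k) {k : ℕ} (hk : k < P.L) :
    P.g X k = P.w X := by
  obtain ⟨d, hd⟩ : ∃ d, k + d + 1 = P.L := ⟨P.L - k - 1, by omega⟩
  induction d generalizing k with
  | zero =>
    rw [hq k hk, ← f_last h (by omega)]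
    congr 1
    omega
  | succ d ih =>
    rw [hq k hk, f_low h (by omega)]
    exact ih (by omega) (by omega)

theorem V_false (h : P.LM X) : ¬ (P.V1 X ∨ P.V2 X) := by
  intro hV
  have hMT : P.M = 2 * P.T + 3 := rfl
  have hBT := BT (P := P)
  have hLT := LT (P := P)
  have hall : ∀ k < P.L, P.g X k = P.w X := fun k hk =>
    clock_all h (fun k hk => clock_follow h hV hk) hk
  by_cases hR : P.c X P.T = true
  · have hV2 : P.V2 X := by
      rcases hV with hV | hV
      · have := hV.1
        rw [hR] at this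
        exact absurd this (by simp)
      · exact hV
    obtain ⟨k, hk, -⟩ := hV2
    have hL : P.L - 1 < P.L := by omega
    have h1 := lm_use h (i := P.B + (P.L - 1)) (p := 2 * P.T + 2) (by omega) (by omega)
      (O_V.2 hV) (by
        intro q hq hpq
        have := mem_infl_g (by omega) hq
        omega)
    rw [O_V, V1_flip_clock hL, V2_flip_clock hL] at h1
    rcases h1 with h1 | ⟨k', hk', h2, -⟩
    · have := h1.1
      rw [hR] at this
      exact absurd this (by simp)
    · have := h2 (P.L - 1) (by omega) (by omega)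
      rw [if_pos rfl, hall _ hL] at this
      cases hw : P.w X <;> simp [hw] at this
  · have h1 := lm_use h (i := P.T) (p := 2 * P.T + 2) (by omega) (by omega)
      (O_V.2 hV) (by
        intro q hq hpq
        have := mem_infl_f (by omega) hq
        omega)
    obtain ⟨hf, hg, hz, hv⟩ := flip_f (P := P) (X := X) (t₀ := P.T) (by omega)
    rw [O_V] at h1
    rcases h1 with h1 | ⟨k', hk', h2, -⟩
    · have h2 := h1.1
      have h3 : P.c (fl X P.T) P.T = !P.c X P.T := Ar_flip_top 0
      rw [h3] at h2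
      exact hR (by simpa using h2)
    · have h3 := h2 (P.L - 1) (by omega) (by omega)
      have h4 : P.w (fl X P.T) = !P.w X := Ar_flip_top _
      rw [h4, hg _ (by omega), hall _ (by omega)] at h3
      cases hw : P.w X <;> simp [hw] at h3

end Par

end Pool.Agent.MPa0a715.IN
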