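import Pool.Agent.Lib.MP_a0a715_lc_IN.Main

/-!
# Local minima of the constructed problem, continued
-/

namespace Pool.Agent.MPa0a715.IN

namespace Par

variable {P : Par} {X Y : ℕ → Bool}

theorem not_of_ne {a b : Bool} (h : a ≠ b) : a = !b := by
  cases a <;> cases b <;> simp_all

/-- below the last step that is not done nothing is done -/
theorem clock_low (h : P.LM X) {k : ℕ} (hk : k < P.L) (hne : P.g X k ≠ P.w X) {i : ℕ}
    (hi : i ≤ k) : P.g X i = !P.w X := by
  obtain ⟨d, hd⟩ : ∃ d, i + d = k := ⟨k - i, by omega⟩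
  induction d generalizing i with
  | zero =>
    have : i = k := by omega
    rw [this]
    exact not_of_ne hne
  | succ d ih =>
    have h1 := ih (i := i + 1) (by omega) (by omega)
    by_contra hcon
    have hMT : P.M = 2 * P.T + 3 := rfl
    have hBT := BT (P := P)
    have hLT := LT (P := P)
    have hf1 : P.f X i = !P.w X := by rw [f_low h (by omega), h1]
    have hgf : P.g X i ≠ P.f X i := by rw [hf1]; exact hcon
    have hiB : i < P.B := by omega
    have hiL : i < P.L := by omega
    obtain ⟨hf, hg, hz, hv⟩ := flip_g (X := X) hiB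
    have hVX := V_false h
    have hV' : ¬ (P.V1 (fl X (P.B + i)) ∨ P.V2 (fl X (P.B + i))) := by
      rw [V1_flip_clock hiL, V2_flip_clock hiL]
      rintro (h2 | ⟨k', hk', h2, h3, h4⟩)
      · exact hVX (Or.inl h2)
      · by_cases h5 : k' ≤ k
        · have h6 := h2 k h5 hk
          rw [if_neg (by omega)] at h6
          exact hne h6
        · refine hVX (Or.inr ⟨k', hk', fun i' hi' hi'L => ?_, h3, h4⟩)
          have h6 := h2 i' hi' hi'L
          rwa [if_neg (by omega)] at h6
    have h2 := lm_use h (i := P.B + i) (p := 2 * i + 1) (by omega) (by omega)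
      ((O_Q hiL).2 hgf) (by
        intro q hq hpq
        have h2 : q = 2 * P.T + 2 := by
          have := mem_infl_g hiB hq
          omega
        rw [h2, O_V, O_V]
        exact iff_of_false hV' hVX)
    rw [O_Q hiL, hg _ hiB, if_pos rfl, hf _ hiB] at h2
    exact bne_flip hgf h2

/-- the winner of a solution does not depend on the stored values -/
theorem Ar_congr' (hf : P.f X P.T = P.f Y P.T) (hg : ∀ t ≤ P.T, P.g X t = P.g Y t) :
    P.AA X = P.AA Y ∧ P.w X = P.w Y ∧ P.c X P.T = P.c Y P.T := by
  have hA : P.Ar X = P.Ar Y := funext (Ar_congr hf hg)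
  refine ⟨?_, ?_, ?_⟩
  · funext j
    unfold AA
    rw [hA]
  · unfold w
    rw [hA]
  · exact congrFun hA 0

/-- the position of the counter -/
theorem PP_of (h : P.LM X) {k : ℕ} (hk : k < P.L) (hg : ∀ i, k < i → i < P.L → P.g X i = P.w X)
    (hne : P.g X k ≠ P.w X) (k' : ℕ) (hk' : k' < P.L) :
    ((∀ i, k' ≤ i → i < P.L → P.f X i = P.f X (P.L - 1)) ∧
      (0 < k' → P.f X (k' - 1) ≠ P.f X (P.L - 1))) ↔ k' = k := by
  have hfl := f_last h (by omega : 0 < P.L)
  rw [hfl]
  have h1 : ∀ i, k ≤ i → i < P.L → P.f X i = P.w X := by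
    intro i hi hiL
    by_cases h2 : i = P.L - 1
    · rw [h2, hfl]
    · rw [f_low h (by omega)]
      exact hg _ (by omega) (by omega)
  have h2 : 0 < k → P.f X (k - 1) ≠ P.w X := by
    intro h0
    rw [f_low h (by omega), show k - 1 + 1 = k by omega]
    exact hne
  constructor
  · rintro ⟨h3, h4⟩
    rcases Nat.lt_trichotomy k' k with h5 | h5 | h5
    · exact absurd (h3 (k - 1) (by omega) (by omega)) (h2 (by omega))
    · exact h5
    · exact absurd (h1 (k' - 1) (by omega) (by omega)) (h4 (by omega))
  · rintro rfl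
    exact ⟨h1, h2⟩

theorem PP_iff (h : P.LM X) {k : ℕ} (hk : k < P.L) (hg : ∀ i, k < i → i < P.L → P.g X i = P.w X)
    (hne : P.g X k ≠ P.w X) (hfY : ∀ i < P.L, P.f Y i = P.f X i) :
    P.PP Y ↔ P.wrong Y (P.w X) k := by
  have hfl := f_last h (by omega : 0 < P.L)
  have key := PP_of h hk hg hne
  unfold PP
  have e : ∀ k' < P.L, ((∀ i, k' ≤ i → i < P.L → P.f Y i = P.f Y (P.L - 1)) ∧
      (0 < k' → P.f Y (k' - 1) ≠ P.f Y (P.L - 1))) ↔ k' = k := by
    intro k' hk'
    rw [← key k' hk', hfY (P.L - 1) (by omega), hfY (k' - 1) (by omega)]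
    refine and_congr ?_ Iff.rfl
    refine forall_congr' fun i => imp_congr_right fun _ => imp_congr_right fun hi => ?_
    rw [hfY _ hi]
  rw [hfY (P.L - 1) (by omega), hfl] at *
  constructor
  · rintro ⟨k', hk', h1, h2, h3⟩
    have : k' = k := (e k' hk').1 ⟨h1, h2⟩
    rwa [this] at h3
  · intro h3
    obtain ⟨h1, h2⟩ := (e k hk).2 rfl
    exact ⟨k, hk, h1, h2, h3⟩

/-- all the steps are done -/
theorem clock_done (h : P.LM X) {k : ℕ} (hk : k < P.L) : P.g X k = P.w X := by
  obtain ⟨d, hd⟩ : ∃ d, k + d + 1 = P.L := ⟨P.L - k - 1, by omega⟩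
  induction d using Nat.strong_induction_on generalizing k with
  | _ d ih =>
  have hhigh : ∀ i, k < i → i < P.L → P.g X i = P.w X := fun i hi hiL =>
    ih (P.L - i - 1) (by omega) hiL (by omega)
  by_contra hne
  have hMT : P.M = 2 * P.T + 3 := rfl
  have hBT := BT (P := P)
  have hLT := LT (P := P)
  have hL : P.L = P.n + 2 * P.m := rfl
  have hVX := V_false h
  have hkB : k < P.B := by omega
  -- step `k` is blocked by the top output
  have hblock : P.free X k ∧ P.wrong X (P.w X) k := by
    obtain ⟨hf, hg, hz, hv⟩ := flip_g (X := X) hkB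
    have hfk : P.f X k = P.w X := by
      by_cases h2 : k = P.L - 1
      · rw [h2, f_last h (by omega)]
      · rw [f_low h (by omega)]
        exact hhigh _ (by omega) (by omega)
    have hgf : P.g X k ≠ P.f X k := by rw [hfk]; exact hne
    by_contra hcon
    have hV' : ¬ (P.V1 (fl X (P.B + k)) ∨ P.V2 (fl X (P.B + k))) := by
      rw [V1_flip_clock hk, V2_flip_clock hk]
      rintro (h2 | ⟨k', hk', h2, h3, h4⟩)
      · exact hVX (Or.inl h2)
      · rcases Nat.lt_trichotomy k' k with h5 | h5 | h5
        · have h6 := h2 k' le_rfl hk'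
          rw [if_neg (by omega), clock_low h hk hne (by omega)] at h6
          cases hw : P.w X <;> simp [hw] at h6
        · rw [h5] at h3 h4
          exact hcon ⟨h3, h4⟩
        · refine hVX (Or.inr ⟨k', hk', fun i' hi' hi'L => ?_, h3, h4⟩)
          have h6 := h2 i' hi' hi'L
          rwa [if_neg (by omega)] at h6
    have h2 := lm_use h (i := P.B + k) (p := 2 * k + 1) (by omega) (by omega)
      ((O_Q hk).2 hgf) (by
        intro q hq hpq
        have h2 : q = 2 * P.T + 2 := by
          have := mem_infl_g hkB hq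
          omega
        rw [h2, O_V, O_V]
        exact iff_of_false hV' hVX)
    rw [O_Q hk, hg _ hkB, if_pos rfl, hf _ hkB] at h2
    exact bne_flip hgf h2
  obtain ⟨hfree, hwrong⟩ := hblock
  have hPP : P.PP X := (PP_iff h hk hhigh hne (Y := X) fun _ _ => rfl).2 hwrong
  by_cases hkm : k < 2 * P.m
  · -- the variable is a stored digit
    have hj : k / 2 < P.B := by omega
    obtain ⟨hf, hg, hz, hv⟩ := flip_z (X := X) (s₀ := decide (k % 2 = 1)) hj
    have hi : (2 + (decide (k % 2 = 1)).toNat) * P.B + k / 2 < 6 * P.B := by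
      have h2 : (2 + (decide (k % 2 = 1)).toNat) * P.B ≤ 3 * P.B := by
        have := Bool.toNat_le (decide (k % 2 = 1))
        exact Nat.mul_le_mul_right _ (by omega)
      omega
    have hfr := hfree hkm
    obtain ⟨hAA, hw, hcT⟩ := Ar_congr' (X := fl X ((2 + (decide (k % 2 = 1)).toNat) * P.B + k / 2))
      (Y := X) (hf _ (by omega)) (fun t ht => hg _ (by omega))
    have h1 := lm_use h (p := 0) hi (by omega) (O_zero.2 hPP) (by
      intro q hq hpq
      have h2 : q = 2 * P.T + 2 ∨ q = 2 * (P.L + k / 2) + 1 := by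
        have := mem_infl_z hj hq
        omega
      rcases h2 with rfl | rfl
      · rw [O_V, O_V]
        refine iff_of_false ?_ hVX
        rintro (h2 | ⟨k', hk', h2, h3, h4⟩)
        · apply hVX
          left
          unfold V1 at h2 ⊢
          rw [hAA, hw, hcT] at h2
          obtain ⟨h3, j, hj', h4⟩ := h2
          refine ⟨h3, j, hj', ?_⟩
          rw [cs_congr (Y := X) fun i hi => hv _ _ (by omega), hz _ _ (by omega), if_neg] at h4
          · exact h4
          · rintro ⟨h5, h6⟩
            rw [h6] at h5
            exact hfr h5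
        · rw [hw] at h2 h4
          have h5 : k < k' := by
            by_contra h5
            have h6 := h2 k (by omega) hk
            rw [hg _ (by omega)] at h6
            exact hne h6
          apply hVX
          right
          refine ⟨k', hk', ?_, ?_, ?_⟩
          · intro i hi' hiL
            have := h2 i hi' hiL
            rwa [hg _ (by omega)] at this
          · unfold free at h3 ⊢
            rwa [hAA] at h3
          · unfold wrong at h4 ⊢
            by_cases h7 : k' < 2 * P.m
            · rw [if_pos h7] at h4 ⊢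
              rw [cs_congr (Y := X) fun i hi => hv _ _ (by omega), hz _ _ (by omega),
                if_neg] at h4
              · exact h4
              · rintro ⟨h8, h9⟩
                have h10 : (k' % 2 = 1) ↔ (k % 2 = 1) := by
                  rwa [decide_eq_decide] at h8
                omega
            · rw [if_neg h7] at h4 ⊢
              rwa [nx_congr (Y := X) fun i hi => hv _ _ (by omega), hv _ _ (by omega)] at h4
      · have e1 : P.c (fl X ((2 + (decide (k % 2 = 1)).toNat) * P.B + k / 2)) (P.L + k / 2) =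
            P.c X (P.L + k / 2) := c_congr (fun _ => hf _ (by omega)) (hg _ (by omega))
        rw [O_O (by omega) (by omega), O_O (by omega) (by omega), e1,
          Nat.add_sub_cancel_left, hz _ _ hj, if_neg]
        rintro ⟨h8, -⟩
        rw [c_AA h (by omega)] at h8
        exact hfr h8)
    rw [O_zero, PP_iff h hk hhigh hne (fun i hi => hf _ (by omega))] at h1
    unfold wrong at h1 hwrong
    rw [if_pos hkm] at h1 hwrong
    rw [hz _ _ hj, if_pos ⟨rfl, rfl⟩, cs_congr (Y := X) fun i hi => hv _ _ (by omega)] at h1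
    exact bne_flip hwrong h1
  · -- the variable is a bit of the stored solution
    have hj : k - 2 * P.m < P.B := by omega
    obtain ⟨hf, hg, hz, hv⟩ := flip_v (X := X) (s₀ := !P.w X) hj
    have hi : (4 + (!P.w X).toNat) * P.B + (k - 2 * P.m) < 6 * P.B := by
      have h2 : (4 + (!P.w X).toNat) * P.B ≤ 5 * P.B := by
        have := Bool.toNat_le (!P.w X)
        exact Nat.mul_le_mul_right _ (by omega)
      omega
    obtain ⟨hAA, hw, hcT⟩ := Ar_congr' (X := fl X ((4 + (!P.w X).toNat) * P.B + (k - 2 * P.m)))
      (Y := X) (hf _ (by omega)) (fun t ht => hg _ (by omega))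
    have hvw : ∀ i < P.n, P.v (fl X ((4 + (!P.w X).toNat) * P.B + (k - 2 * P.m))) (P.w X) i =
        P.v X (P.w X) i := by
      intro i hi'
      rw [hv _ _ (by omega), if_neg]
      rintro ⟨h8, -⟩
      cases hw : P.w X <;> simp [hw] at h8
    have h1 := lm_use h (p := 0) hi (by omega) (O_zero.2 hPP) (by
      intro q hq hpq
      have h2 : q = 2 * P.T + 2 := by
        have := mem_infl_v hq
        omega
      rw [h2, O_V, O_V]
      refine iff_of_false ?_ hVX
      rintro (h2 | ⟨k', hk', h2, h3, h4⟩)
      · apply hVX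
        left
        unfold V1 at h2 ⊢
        rw [hAA, hw, hcT] at h2
        obtain ⟨h3, j, hj', h4⟩ := h2
        refine ⟨h3, j, hj', ?_⟩
        rwa [cs_congr (Y := X) hvw, hz _ _ (by omega)] at h4
      · rw [hw] at h2 h4
        have h5 : k < k' := by
          by_contra h5
          have h6 := h2 k (by omega) hk
          rw [hg _ (by omega)] at h6
          exact hne h6
        apply hVX
        right
        refine ⟨k', hk', ?_, ?_, ?_⟩
        · intro i hi' hiL
          have := h2 i hi' hiL
          rwa [hg _ (by omega)] at this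
        · unfold free at h3 ⊢
          rwa [hAA] at h3
        · unfold wrong at h4 ⊢
          rw [if_neg (by omega)] at h4 ⊢
          rwa [nx_congr (Y := X) hvw, hv _ _ (by omega), if_neg (by omega)] at h4)
    rw [O_zero, PP_iff h hk hhigh hne (fun i hi => hf _ (by omega))] at h1
    unfold wrong at h1 hwrong
    rw [if_neg hkm] at h1 hwrong
    rw [hv _ _ hj, if_pos ⟨rfl, rfl⟩, nx_congr (Y := X) hvw] at h1
    exact bne_flip hwrong h1

end Par

end Pool.Agent.MPa0a715.IN
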